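import Pool.Agent.Q145.PQ.VarP
import Pool.Agent.Q53.LQ.HSQ

/-!
# Project PQ (helper145), JP2: the average of `JP (|n² - m²|) ^ (2K)` over two residue classes (helper68; after helper53,
`LQ/HSQ.lean`), with the hypothesis `3 ≤ Z` of `JPOLYc`
-/

set_option autoImplicit false

namespace Pool.Agent.Q145.PQ.JP2c

open Finset Filter Pool.Agent.Q145.SZ Pool.Agent.Q145.LQ Pool.Agent.Q145.PQ Pool.Agent.Q261.SZ
open Pool.Agent.Q53.LQ.JPOLY Pool.Agent.Q53.LQ.HSQ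

theorem main (hJ : JPOLYc) : S_JP2' := by
  classical
  obtain ⟨C, z₁, hC1, hJ⟩ := hJ 2
  have hev : ∀ᶠ z : ℕ in atTop, Real.exp ((z : ℝ) / 2) ≤ PW z ∧ 60 ≤ z ∧ (4 * C + 1 : ℝ) ≤ Real.log z ∧ z₁ ≤ z := by
    have h1 : Tendsto (fun z : ℕ => Real.log z) atTop atTop :=
      Real.tendsto_log_atTop.comp tendsto_natCast_atTop_atTop
    filter_upwards [PW_large, eventually_ge_atTop 60, h1.eventually_ge_atTop (4 * C + 1 : ℝ),
      eventually_ge_atTop z₁] with z a b c d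
    exact ⟨a, b, c, d⟩
  obtain ⟨z₀, hz₀⟩ := hev.exists_forall_of_atTop
  refine ⟨2 * C, z₀, by omega, ?_⟩
  intro z Y K hz hK hY c e
  obtain ⟨hW, hz60, hlogC, hz1⟩ := hz₀ z hz
  have hz60r : (60 : ℝ) ≤ z := by exact_mod_cast hz60
  have hC0 : (0 : ℝ) ≤ C := Nat.cast_nonneg _
  have hW0 : (0 : ℝ) < PW z := by exact_mod_cast Nat.pos_of_ne_zero (NeZero.ne (PW z))
  have hlog0 : 0 < Real.log z := by linarith
  rcases Nat.eq_zero_or_pos Y with hY0 | hY0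
  · subst hY0
    simp
  have hZ4 : 4 ≤ 4 * Y ^ 2 := Nat.le_mul_of_pos_right 4 (by positivity)
  have hYZ : Y ≤ 4 * Y ^ 2 := by nlinarith
  have hLeq : Real.log (4 * (Y : ℝ) ^ 2) = Real.log ((4 * Y ^ 2 : ℕ) : ℝ) := by push_cast; rfl
  obtain ⟨L, hL⟩ : ∃ L : ℝ, L = Real.log ((4 * Y ^ 2 : ℕ) : ℝ) := ⟨_, rfl⟩
  rw [hLeq, ← hL] at hY
  have hL1 : 1 ≤ L := by
    rw [hL, Real.le_log_iff_exp_le (by exact_mod_cast (show 0 < 4 * Y ^ 2 by omega))]
    have : (4 : ℝ) ≤ ((4 * Y ^ 2 : ℕ) : ℝ) := by exact_mod_cast hZ4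
    linarith [Real.exp_one_lt_d9]
  have hWY : (PW z : ℝ) ^ 2 ≤ Y :=
    le_trans (le_mul_of_one_le_right (by positivity) (one_le_pow₀ hL1)) hY
  obtain ⟨T, hT⟩ : ∃ T : ℝ, T = (Y : ℝ) / PW z := ⟨_, rfl⟩
  rw [← hT]
  have hY0r : (0 : ℝ) < Y := by exact_mod_cast hY0
  have hT0 : 0 < T := by rw [hT]; positivity
  have hCu : (C : ℝ) / Real.log z ≤ 1 / 4 := by
    rw [div_le_iff₀ hlog0]
    linarith
  have hT4 : 4 ≤ T := by
    have h2 : (PW z : ℝ) ≤ T := by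
      rw [hT, le_div_iff₀ hW0]
      calc (PW z : ℝ) * PW z = (PW z : ℝ) ^ 2 := by ring
        _ ≤ Y := hWY
    have h3 := Real.add_one_le_exp ((z : ℝ) / 2)
    linarith
  -- the inner sum
  have hinner : ∀ n ∈ Ioc Y (2 * Y),
      ∑ m ∈ (Ioc Y (2 * Y)).filter (fun m : ℕ => (m : ZMod (PW z)) = e ∧ n ≠ m),
        JP z (dst (n ^ 2) (m ^ 2)) ^ (2 * K) ≤ T * (5 / 4) := by
    intro n hn
    obtain ⟨R, hR⟩ : ∃ R : Polynomial ℤ, R = Polynomial.X ^ 2 - Polynomial.C ((n : ℤ) ^ 2) := ⟨_, rfl⟩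
    have hRe : ∀ m : ℤ, R.eval m = m ^ 2 - (n : ℤ) ^ 2 := by
      intro m
      rw [hR, Polynomial.eval_sub, Polynomial.eval_pow, Polynomial.eval_X, Polynomial.eval_C]
    have hdeg : R.natDegree = 2 := by
      rw [hR, Polynomial.natDegree_sub_C, Polynomial.natDegree_X_pow]
    have hlc : R.leadingCoeff = 1 := by
      unfold Polynomial.leadingCoeff
      rw [hdeg, hR, Polynomial.coeff_sub, Polynomial.coeff_X_pow, if_pos rfl,
        Polynomial.coeff_C_of_ne_zero (by norm_num), sub_zero]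
    have hR0 : R ≠ 0 := by
      intro h
      rw [h, Polynomial.natDegree_zero] at hdeg
      omega
    have h1 := hJ z Y (4 * Y ^ 2) (2 * K) R hz1 (by omega) (by omega) hYZ (by
      refine le_trans ?_ hY
      rw [← hL]
      refine mul_le_mul_of_nonneg_left (pow_le_pow_right₀ hL1 ?_) (by positivity)
      calc C * (2 * K + 1) ≤ C * (2 * (K + 1)) := Nat.mul_le_mul_left _ (by omega)
        _ = 2 * C * (K + 1) := by ring) hR0 hdeg.le (by rw [hlc]; simp; omega) e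
    rw [← hT] at h1
    refine le_trans ?_ (h1.trans (mul_le_mul_of_nonneg_left (by linarith) hT0.le))
    have heq : ∀ m : ℕ, (R.eval (m : ℤ)).natAbs = dst (n ^ 2) (m ^ 2) := by
      intro m
      rw [hRe, dst_nat]
      push_cast
      rfl
    simp only [heq]
    refine sum_le_sum_of_subset_of_nonneg ?_ fun m _ _ =>
      pow_nonneg (zero_le_one.trans (JP_one_le z _)) _
    intro m hm
    rw [mem_filter] at hm ⊢
    rw [mem_Ioc] at hn
    obtain ⟨hm1, hm2, hm3⟩ := hm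
    have hm4 := mem_Ioc.1 hm1
    refine ⟨hm1, hm2, ?_, ?_⟩
    · rw [hRe]
      intro h
      have h5 : (m : ℤ) ^ 2 = (n : ℤ) ^ 2 := by linarith
      have h6 : m ^ 2 = n ^ 2 := by exact_mod_cast h5
      exact hm3 (Nat.pow_left_injective (by norm_num : 2 ≠ 0) h6).symm
    · have h5 : m ^ 2 ≤ 4 * Y ^ 2 := by nlinarith [hm4.2]
      have h6 : n ^ 2 ≤ 4 * Y ^ 2 := by nlinarith [hn.2]
      unfold dst
      omega
  -- the outer sum
  have hcard : (((Ioc Y (2 * Y)).filter (fun n : ℕ => (n : ZMod (PW z)) = c)).card : ℝ) ≤ T + 1 := by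
    rw [hT]
    refine cnt_le Y (PW z) (Nat.pos_of_ne_zero (NeZero.ne (PW z))) _ (filter_subset _ _) fun a ha b hb => ?_
    rw [mem_filter] at ha hb
    rw [← ZMod.natCast_eq_natCast_iff, ha.2, hb.2]
  refine (sum_le_card_nsmul _ _ _ fun n hn => hinner n (mem_filter.1 hn).1).trans ?_
  rw [nsmul_eq_mul]
  refine (mul_le_mul_of_nonneg_right hcard (by positivity)).trans ?_
  nlinarith

end Pool.Agent.Q145.PQ.JP2c

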