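import Pool.Agent.Q145.LQ.Var
import Pool.Agent.Q145.LQ.Near
import Pool.Agent.Q145.LS.Stm

/-!
# Project PQ (helper145): long systems `a_i p² + c_i + s_i` at prime arguments `p`

Polynomials `q_i = a_i x² + c_i` (`Sq q`), of size `H_i` on `(Y, 2Y]`, `Y² ≤ H_i ≤ z Y²`, `|a_i| ≤ z` (`Sys 2 z Y (Y ^ 2) H q`, project LQ) and constants `1 ≤ s_i ≤ H_i`.
`cntP Y q s` is the number of primes `Y < n ≤ 2Y` with `q_i(n) + s_i` prime for all `i`. The project proves the Hardy-Littlewood (Bateman-Horn) formula for almost all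
admissible `s`, `K` up to `c log Y / log log Y`; it combines project LS (linear forms at prime arguments, `Pool/Agent/Q145/LS/Stm.lean`) and project LQ (polynomials at all
integers, `Pool/Agent/Q145/LQ/Stm.lean`, `Stm2.lean`).

Every `S_...` below is a `Prop` with a complete proof in its docstring; nearly all are small adaptations of a proved statement of the projects LS and LQ (the file to adapt is named).
A job = a theorem `t_... : S_...` in its own file `Pool/Agent/Q<you>/PQ/<Name>.lean`, which imports this file and whatever library, LS or LQ file it uses (please copy and change, do not edit their files).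
-/

set_option autoImplicit false

namespace Pool.Agent.Q145.PQ

open Finset Filter
open Pool.Agent.Q145.SZ
open Pool.Agent.Q145.LS (uni th)
open Pool.Agent.Q145.LQ (vq ev Sys SbQ JP CC CRTQ GQ w0)

/-! ## Definitions -/

/-- the polynomials `a_i x² + c_i` -/
def Sq {K : ℕ} (q : Fin K → Polynomial ℤ) : Prop := ∀ i, ∃ a c : ℤ, q i = Polynomial.C a * Polynomial.X ^ 2 + Polynomial.C c

/-- the number of classes `n` modulo `p` (prime) with `p | n ∏ (q_i(n) + s_i)` -/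
def nuP {K : ℕ} (q : Fin K → Polynomial ℤ) (s : Fin K → ℕ) (p : ℕ) : ℕ :=
  ((range p).filter fun n : ℕ => n = 0 ∨ ∃ i, (p : ℤ) ∣ (q i).eval (n : ℤ) + s i).card

/-- admissible systems -/
def AdmP {K : ℕ} (q : Fin K → Polynomial ℤ) (s : Fin K → ℕ) : Prop := ∀ p : ℕ, p.Prime → nuP q s p < p

/-- the factor of the singular series at `p` -/
noncomputable def locP {K : ℕ} (q : Fin K → Polynomial ℤ) (s : Fin K → ℕ) (p : ℕ) : ℝ := (1 - (nuP q s p : ℝ) / p) / (1 - 1 / (p : ℝ)) ^ (K + 1)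

/-- partial product of the singular series, primes `p ≤ w` -/
noncomputable def singPP {K : ℕ} (q : Fin K → Polynomial ℤ) (s : Fin K → ℕ) (w : ℕ) : ℝ := ∏ p ∈ (Icc 1 w).filter Nat.Prime, locP q s p

/-- the singular series -/
noncomputable def singP {K : ℕ} (q : Fin K → Polynomial ℤ) (s : Fin K → ℕ) : ℝ := limUnder atTop (singPP q s)

/-- the number of primes `Y < n ≤ 2Y` with all `q_i(n) + s_i` prime -/
def cntP {K : ℕ} (Y : ℕ) (q : Fin K → Polynomial ℤ) (s : Fin K → ℕ) : ℕ := ((Ioc Y (2 * Y)).filter fun n => n.Prime ∧ ∀ i, (vq (q i) n + s i).Prime).card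

open Classical in
/-- the admissible constants in the box -/
noncomputable def ATP {K : ℕ} (H : Fin K → ℕ) (q : Fin K → Polynomial ℤ) : Finset (Fin K → ℕ) := (Fintype.piFinset fun i => Icc 1 (H i)).filter (AdmP q)

/-- the weighted count -/
noncomputable def wcP {K : ℕ} (Y : ℕ) (q : Fin K → Polynomial ℤ) (s : Fin K → ℕ) : ℝ := ∑ n ∈ Ioc Y (2 * Y), wt n * ∏ i, wt (vq (q i) n + s i)

section classes

variable {W : ℕ} [NeZero W]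

open Classical in
/-- the units `x` with all `q_i(x) + b_i` units -/
noncomputable def GP {K : ℕ} (q : Fin K → Polynomial ℤ) (b : Fin K → ZMod W) : Finset (ZMod W) := univ.filter fun x => IsUnit x ∧ ∀ i, IsUnit (ev (q i) x + b i)

open Classical in
/-- the admissible constants modulo `W` -/
noncomputable def AdP (W : ℕ) [NeZero W] {K : ℕ} (q : Fin K → Polynomial ℤ) : Finset (Fin K → ZMod W) := univ.filter fun b => (GP q b).Nonempty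

/-- the expected number of points for constants in the classes `b` -/
noncomputable def MbP {K : ℕ} (Y : ℕ) (q : Fin K → Polynomial ℤ) (b : Fin K → ZMod W) : ℝ := Y * ((GP q b).card : ℝ) / W * vv W ^ (K + 1)

open Classical in
/-- the weight of the first moment -/
noncomputable def w1p {K : ℕ} (q : Fin K → Polynomial ℤ) (n : ZMod W) (b : Fin K → ZMod W) : ℝ :=
  if n ∈ GP q b then ((GP q b).card : ℝ)⁻¹ else 0

open Classical in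
/-- the weight of the second moment -/
noncomputable def w2p {K : ℕ} (q : Fin K → Polynomial ℤ) (n m : ZMod W) (b : Fin K → ZMod W) : ℝ :=
  if n ∈ GP q b ∧ m ∈ GP q b then (((GP q b).card : ℝ) ^ 2)⁻¹ else 0

end classes

/-! ## Layer A: the local law -/

/-- law of one coordinate with the first power -/
def LAW1P (d : ℕ) (C : ℝ) : Prop := ∀ (W : ℕ) [NeZero W], Squarefree W → ∀ (K : ℕ) (q : Fin K → Polynomial ℤ), (∀ i, (q i).natDegree ≤ d) → ∀ (n : ZMod W) (i : Fin K) (η : ZMod W → ℝ) (δ : ℝ), 0 ≤ δ →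
  (∑ β ∈ Us (ev (q i) n) (ev (q i) n), η β ^ 2 ≤ δ ^ 2 * (Us (ev (q i) n) (ev (q i) n)).card) →
  ∑ b : Fin K → ZMod W, w1p q n b * η (b i) ≤ δ * √(CC C W) * ∑ b : Fin K → ZMod W, w1p q n b

/-- replacement of all coordinates -/
def LAW2P (d : ℕ) (C : ℝ) : Prop := ∀ (W : ℕ) [NeZero W], Squarefree W → ∀ (K : ℕ) (q : Fin K → Polynomial ℤ), (∀ i, (q i).natDegree ≤ d) → ∀ (n m : ZMod W) (η : Fin K → ZMod W → ℝ) (δ : ℝ), 0 ≤ δ →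
  (∀ i, ∀ β ∈ Us (ev (q i) n) (ev (q i) m), -1 ≤ η i β) →
  (∀ i, ∑ β ∈ Us (ev (q i) n) (ev (q i) m), η i β ^ 2 ≤ δ ^ 2 * (Us (ev (q i) n) (ev (q i) m)).card) →
  ∑ b : Fin K → ZMod W, w2p q n m b * ∏ i, (1 + η i (b i)) ≤ (1 + δ * √(CC C W)) ^ K * ∑ b : Fin K → ZMod W, w2p q n m b

/-- **LAWP** (adapt `Pool/Agent/Q177/LQ/LAWQ.lean`, theorem `t_LAWQ`). Proof. As sets `GP q c = GQ (cons X q) (cons 0 c)` (`ev X x = x`) and `GP (cons v q) (cons β c) = GQ (cons v (cons X q)) (cons β (cons 0 c))`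
(the conditions are the same in another order). So `CRTQ d C` for the `k + 1` polynomials `cons X q` with the constants `cons 0 c` is the inequality of `CRTQ` with `GP` in place of `GQ`; the rest of the proof of `t_LAWQ` does not change. -/
def S_LAWP : Prop := ∀ (d : ℕ) (C : ℝ), 0 < C → CRTQ d C → LAW1P d C ∧ LAW2P d C

/-- **UNIP** (invariance under units; adapt `Pool/Agent/Q162/LS/UNI.lean`, theorem for `S_UNI`). Proof. `q_i = a_i x² + c_i`. For a unit `t` the bijection `b ↦ b'`, `b'_i = t² (c_i + b_i) - c_i`, satisfies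
`q_i(t x) + b'_i = t² (q_i(x) + b_i)`, so `x ∈ GP q b ↔ t x ∈ GP q b'`, `|GP q b'| = |GP q b|`, `w1p q (t n) b' = w1p q n b`, `w2p q (t n) (t m) b' = w2p q n m b`. Non-units are never in `GP q b`. So `∑_b w1p q n b` is the same for
all units `n`, and `∑_n ∑_b w1p q n b = ∑_{b ∈ AdP} 1 = |AdP|`, `∑_{n, m} ∑_b w2p q n m b = |AdP|`. -/
def S_UNIP : Prop := ∀ (W : ℕ) [NeZero W] (K : ℕ) (q : Fin K → Polynomial ℤ), Sq q →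
  (∀ n : ZMod W, ∑ b : Fin K → ZMod W, w1p q n b = if n ∈ uni W then ((AdP W q).card : ℝ) / Nat.totient W else 0) ∧
  (∀ (t : (ZMod W)ˣ) (n m : ZMod W), ∑ b : Fin K → ZMod W, w2p q ((t : ZMod W) * n) ((t : ZMod W) * m) b = ∑ b : Fin K → ZMod W, w2p q n m b) ∧
  (∀ n m : ZMod W, n ∉ uni W ∨ m ∉ uni W → ∑ b : Fin K → ZMod W, w2p q n m b = 0) ∧
  (∑ n ∈ uni W, ∑ m ∈ uni W, ∑ b : Fin K → ZMod W, w2p q n m b = ((AdP W q).card : ℝ)) ∧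
  (∀ n m : ZMod W, ∑ b : Fin K → ZMod W, w2p q n m b ≤ ((AdP W q).card : ℝ))

/-! ## Layer B: the moments -/

/-- **MOM1P** (first moment; adapt `Pool/Agent/Q145/LS/MOM1S.lean`, with `Pool/Agent/Q145/LQ/MOM1Q.lean` for the means `A1`). Proof. `(vq (q i) n : ZMod W) = ev (q i) n` (`LQ.cast_vq`). `(∑_{s ∈ SbQ} wcP Y q s) / |SbQ| = ∑_n wt n ∏_i A1 (H i) (vq (q i) n) (b i)`
(all classes `cls (H i) β` are nonempty, `W ≤ H i`). With `v = vv W > 0`, `∏ x_i ≥ 1 - ∑ |x_i - 1|` for `x_i ≥ 0`: for `b ∈ AdP` the quotient by `MbP = Y |GP| v^{K+1} / W` is at least `(W / (Y v)) ∑_n wt n · w1p q n b · (1 - ∑_i |A1/v - 1|)` (drop the `n ∉ GP q b`).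
Sum over `b`: for `n` with `wt n ≠ 0`, `n` is a prime `> Y ≥ W`, a unit mod `W`, so `∑_b w1p q n b = |AdP|/φ(W)` (UNIP), and LAW1P with `η β = |A1/v - 1|` gives `∑_b w1p q n b η (b i) ≤ δ √CC |AdP|/φ(W)`. So the total is at least
`(W / (Y v φ(W))) |AdP| (∑_n wt n) (1 - K δ √CC)`, `W / (v φ(W)) = 1`, and `(1 - ε₀) Y ≤ ∑ wt n ≤ (1 + ε₀) Y`: `≥ |AdP| ((1 - ε₀) - (1 + ε₀) K δ √CC)` (split the product: main part with the lower bound of `∑ wt n`, error part with the upper bound). -/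
def S_MOM1P : Prop := ∀ (d : ℕ) (C : ℝ), 0 < C → LAW1P d C → S_UNIP → ∀ (W : ℕ) [NeZero W] (Y K : ℕ) (H : Fin K → ℕ) (q : Fin K → Polynomial ℤ) (ε₀ δ : ℝ), Squarefree W → W ≤ Y → (∀ i, W ≤ H i) →
  0 ≤ ε₀ → 0 ≤ δ → (∀ i, (q i).natDegree ≤ d) → Sq q → (∀ i, ∀ n ∈ Ioc Y (2 * Y), 0 ≤ (q i).eval (n : ℤ)) →
  |∑ n ∈ Ioc Y (2 * Y), wt n - Y| ≤ ε₀ * Y →
  (∀ i, ∀ n ∈ Ioc Y (2 * Y), ∑ β ∈ Us (ev (q i) (n : ZMod W)) (ev (q i) (n : ZMod W)), (A1 (H i) (vq (q i) n) β - vv W) ^ 2 ≤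
    (δ * vv W) ^ 2 * (Us (ev (q i) (n : ZMod W)) (ev (q i) (n : ZMod W))).card) →
  (1 - ε₀ - (1 + ε₀) * (K * (δ * √(CC C W)))) * (AdP W q).card ≤
    ∑ b ∈ AdP W q, (∑ s ∈ SbQ H b, wcP Y q s / MbP Y q b) / (SbQ H b).card

open Classical in
/-- **MOM2P** (second moment; adapt `Pool/Agent/Q213/LS/Mom2.lean` (`S_MOM2S`), with `Pool/Agent/Q124/LQ/Mom2q.lean` for the means `B2`). Proof. `(∑_{s ∈ SbQ} (wcP Y q s)²) / |SbQ| = ∑_{n, m} wt n wt m ∏_i B2 (H i) (vq (q i) n) (vq (q i) m) (b i)`; everything is `≥ 0`.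
By (H2') and as `wt n ≠ 0` only for units (primes `> Y ≥ W`), the product vanishes unless `n, m ∈ GP q b`. With `v = vv W`: `∑_{b ∈ AdP} E_b (wcP/MbP)² = (W/(Y v))² ∑_{n,m} wt n wt m ∑_b w2p q n m b ∏_i (B2 / v²)`.
(a) `n ≠ m`, `(n, m) ∉ E`: `η i β = B2 / (v² S i n m) - 1 ≥ -1`; (H2) and LAW2P bound the inner sum by `∏_i S i n m · (1 + ε₂ √CC)^K ∑_b w2p ≤ T n m ^ K (1 + ε₂ √CC)^K ∑_b w2p`. (HS) with `Q c d = ∑_b w2p q c d b` (UNIP) gives at most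
`(W/(Y v))² (Y/φ(W))² (1 + H₀) (1 + ε₂ √CC)^K |AdP| = (1 + H₀)(1 + ε₂ √CC)^K |AdP|`. (b) `(n, m) ∈ E`, `n ≠ m`: (H3), `wt ≤ 2 log Y`, `∑_b w2p ≤ |AdP|`, `v ≥ 1`: `≤ (W/Y)² (2 log Y)² C₀^K |AdP| ∑_E T^K ≤ W² (2 log Y)² C₀^K e₂ |AdP|`.
(c) `n = m`: (H4): `≤ (W/Y)² Y (2 log Y)² D₀^K |AdP|`. -/
def S_MOM2P : Prop := ∀ (d : ℕ) (C : ℝ), 0 < C → LAW2P d C → S_UNIP → ∀ (W : ℕ) [NeZero W] (Y K : ℕ) (H : Fin K → ℕ) (q : Fin K → Polynomial ℤ) (ε₂ C₀ D₀ H₀ e₂ : ℝ) (S : Fin K → ℕ → ℕ → ℝ) (T : ℕ → ℕ → ℝ)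
    (E : Finset (ℕ × ℕ)),
  Squarefree W → W ≤ Y → (∀ i, W ≤ H i) → (∀ i, (q i).natDegree ≤ d) → Sq q → (∀ i, ∀ n ∈ Ioc Y (2 * Y), 0 ≤ (q i).eval (n : ℤ)) →
  0 ≤ ε₂ → 0 ≤ C₀ → 0 ≤ D₀ → 0 ≤ H₀ → 0 ≤ e₂ → (∀ i n m, 0 < S i n m) → (∀ n m, 0 ≤ T n m) →
  (∀ i, ∀ n ∈ Ioc Y (2 * Y), ∀ m ∈ Ioc Y (2 * Y), n ≠ m → S i n m ≤ T n m) →
  (∀ i, ∀ n ∈ Ioc Y (2 * Y), ∀ m ∈ Ioc Y (2 * Y), n ≠ m → (n, m) ∉ E →
    ∑ β ∈ Us (ev (q i) (n : ZMod W)) (ev (q i) (m : ZMod W)), (B2 (H i) (vq (q i) n) (vq (q i) m) β - vv W ^ 2 * S i n m) ^ 2 ≤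
      (ε₂ * vv W ^ 2 * S i n m) ^ 2 * (Us (ev (q i) (n : ZMod W)) (ev (q i) (m : ZMod W))).card) →
  (∀ i, ∀ n ∈ Ioc Y (2 * Y), ∀ m ∈ Ioc Y (2 * Y), ∀ β : ZMod W, β ∉ Us (ev (q i) (n : ZMod W)) (ev (q i) (m : ZMod W)) → B2 (H i) (vq (q i) n) (vq (q i) m) β = 0) →
  (∀ i, ∀ n ∈ Ioc Y (2 * Y), ∀ m ∈ Ioc Y (2 * Y), n ≠ m → ∀ β : ZMod W, B2 (H i) (vq (q i) n) (vq (q i) m) β ≤ C₀ * vv W ^ 2 * S i n m) →
  (∀ i, ∀ n ∈ Ioc Y (2 * Y), ∀ β : ZMod W, B2 (H i) (vq (q i) n) (vq (q i) n) β ≤ D₀) →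
  (∀ n ∈ Ioc Y (2 * Y), wt n ≤ 2 * Real.log Y) →
  (∀ Q : ZMod W → ZMod W → ℝ, (∀ c d, 0 ≤ Q c d) → (∀ (t : (ZMod W)ˣ) (c d : ZMod W), Q (t * c) (t * d) = Q c d) →
    ∑ n ∈ Ioc Y (2 * Y), ∑ m ∈ (Ioc Y (2 * Y)).filter (fun m => m ≠ n), wt n * wt m * T n m ^ K * Q n m ≤
      ((Y : ℝ) / Nat.totient W) ^ 2 * (1 + H₀) * ∑ c ∈ uni W, ∑ d ∈ uni W, Q c d) →
  (∑ x ∈ E.filter (fun x => x.1 ∈ Ioc Y (2 * Y) ∧ x.2 ∈ Ioc Y (2 * Y) ∧ x.1 ≠ x.2), T x.1 x.2 ^ K ≤ e₂ * (Y : ℝ) ^ 2) →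
  ∑ b ∈ AdP W q, (∑ s ∈ SbQ H b, (wcP Y q s / MbP Y q b) ^ 2) / (SbQ H b).card ≤
    ((1 + ε₂ * √(CC C W)) ^ K * (1 + H₀) + (W : ℝ) ^ 2 * C₀ ^ K * e₂ * (2 * Real.log Y) ^ 2 + (W : ℝ) ^ 2 * D₀ ^ K * (2 * Real.log Y) ^ 2 / Y) *
      (AdP W q).card

/-! ## Layer C: the pair singular series on average -/

/-- **JPB** (from BT, SQ2; adapt `Pool/Agent/Q18/LS/HSB.lean` (`S_HSB` of `LS/Stm.lean`)). Write `W = PW z`, `L = log Y`, `φ = φ(W)`, `h = dst (n²) (m²)`, `1 ≤ h ≤ 4 Y²` for `n ≠ m` in `(Y, 2Y]`. `JP z h ^ K = ∏_{p | h, p > z} (1 + g(p)) = ∑_{e | h} g(e)`, `e` squarefree with all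
prime factors in `(z, 4Y²]`, `g(p) = (p/(p-1))^K - 1 ≤ 4K/p` (`8K ≤ z < p`). The term `e = 1` gives `th Y c * th Y e` (plus nonnegative diagonal terms). For `e > 1` and `n` fixed: `e | n² - m²` gives at most `2^{ω(e)}` classes for `m` modulo `e` (at most two roots of `x² - n²` modulo each odd prime), with
`m ≡ e₀` mod `W` at most `2^{ω(e)}` classes modulo `W e` (`W`, `e` coprime). Put `E₀ = Y^{1/4}`. (i) `e ≤ E₀`: `(W e)² ≤ Y`, BT for each class: `≤ 2^{ω(e)} C Y/(φ φ(e))`, and BT (modulus `W`) for the sum over `n`: total `≤ C² (Y/φ)² 2^{ω(e)} g(e)/φ(e)`. Sum over `e > 1`: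
`∏ (1 + 8K/(p(p-1))) - 1 ≤ exp(∑_{p > z} 16K/p²) - 1 ≤ C'/log z` (SQ2, `8K ≤ z`). (ii) `e > E₀`: `wt ≤ 2L`; at most `2Y/W` values of `n ≡ c`, at most `2^{ω(e)} (Y/(We) + 1)` values of `m`: `≤ 8 L² (Y/W)(Y/(We) + 1) 2^{ω(e)} g(e)`. `∑_{e > E₀} 2^{ω(e)} g(e)/e ≤ E₀^{-1/2} ∏ (1 + 8K/p^{3/2}) ≤ E₀^{-1/2} e^{C z}` and
`∑_e 2^{ω(e)} g(e) ≤ ∏_{p ≤ 4Y²} (1 + 8K/p) ≤ L^{C(K+1)}`. Total `≤ 8 L² (Y/W)² (Y^{-1/8} e^{Cz} + (W/Y) L^{C(K+1)})`, which is `≤ (Y/φ)²/log z` if `exp (C z) L^{C(K+1)} ≤ Y` with `C` large (`PW z ≤ 4^z`: `Pool.Agent.Q111.SZ.t_PWB`). -/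
def S_JPB : Prop := LS.S_BT → LS.S_SQ2 → ∃ (C z₀ : ℕ), 1 ≤ C ∧ ∀ (z Y K : ℕ), z₀ ≤ z → 8 * K ≤ z → Real.exp (C * z) * Real.log Y ^ (C * (K + 1)) ≤ Y →
  ∀ c ∈ uni (PW z), ∀ d ∈ uni (PW z),
  ∑ n ∈ (Ioc Y (2 * Y)).filter (fun n : ℕ => (n : ZMod (PW z)) = c),
    ∑ m ∈ (Ioc Y (2 * Y)).filter (fun m : ℕ => (m : ZMod (PW z)) = d ∧ m ≠ n), wt n * wt m * JP z (dst (n ^ 2) (m ^ 2)) ^ K ≤
      th Y c * th Y d + ((Y : ℝ) / Nat.totient (PW z)) ^ 2 * (C / Real.log z)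

/-- conclusion of `S_JPB` -/
def S_JPB' : Prop := ∃ (C z₀ : ℕ), 1 ≤ C ∧ ∀ (z Y K : ℕ), z₀ ≤ z → 8 * K ≤ z → Real.exp (C * z) * Real.log Y ^ (C * (K + 1)) ≤ Y →
  ∀ c ∈ uni (PW z), ∀ d ∈ uni (PW z),
  ∑ n ∈ (Ioc Y (2 * Y)).filter (fun n : ℕ => (n : ZMod (PW z)) = c),
    ∑ m ∈ (Ioc Y (2 * Y)).filter (fun m : ℕ => (m : ZMod (PW z)) = d ∧ m ≠ n), wt n * wt m * JP z (dst (n ^ 2) (m ^ 2)) ^ K ≤
      th Y c * th Y d + ((Y : ℝ) / Nat.totient (PW z)) ^ 2 * (C / Real.log z)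

/-- **HSSP** (from JPB', YNG; copy `Pool/Agent/Q211/LS/Hss.lean` (`S_HSS`), with `JP z (dst (n ^ 2) (m ^ 2))` in place of `SP z X (dst n m)`). Proof. Split the sum over `n, m` by classes `c`, `d`; if `c` or `d` is not a unit the terms vanish (`wt n ≠ 0` only for primes
`n > Y ≥ W`, units mod `W`); JPB' and then YNG: `≤ ∑_{c,d} Q c d (th Y c th Y d) + (Y/φ)² (C/log z) ∑∑ Q ≤ (Y/φ)² (1 + 3ε + C/log z) ∑∑ Q`. -/
def S_HSSP : Prop := S_JPB' → LS.S_YNG → ∃ (C z₀ : ℕ), 1 ≤ C ∧ ∀ (z Y K : ℕ) (ε : ℝ), z₀ ≤ z → 8 * K ≤ z → Real.exp (C * z) * Real.log Y ^ (C * (K + 1)) ≤ Y → PW z ≤ Y → 0 ≤ ε → ε ≤ 1 →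
  (∑ c ∈ uni (PW z), (th Y c - (Y : ℝ) / Nat.totient (PW z)) ^ 2 ≤ ε ^ 2 * (Y : ℝ) ^ 2 / Nat.totient (PW z)) →
  ∀ Q : ZMod (PW z) → ZMod (PW z) → ℝ, (∀ c d, 0 ≤ Q c d) → (∀ (t : (ZMod (PW z))ˣ) (c d : ZMod (PW z)), Q (t * c) (t * d) = Q c d) →
  ∑ n ∈ Ioc Y (2 * Y), ∑ m ∈ (Ioc Y (2 * Y)).filter (fun m => m ≠ n), wt n * wt m * JP z (dst (n ^ 2) (m ^ 2)) ^ K * Q n m ≤
    ((Y : ℝ) / Nat.totient (PW z)) ^ 2 * (1 + (C / Real.log z + 3 * ε)) * ∑ c ∈ uni (PW z), ∑ d ∈ uni (PW z), Q c d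

/-- **SPJ** (one pair). Proof. `q_i = a x² + c`, `a ≠ 0` (`natDegree ≥ 1`), `|a| ≤ z`, so the values at `n ≠ m` differ by `|a| |n² - m²| ≠ 0` and `dst (vq n) (vq m) = |a| dst (n²) (m²)`. `SP z H h ≤ JP z h` for `h ≥ 1` (factors with `p ∤ h` are in `[0, 1]`, see `Pool/Agent/Q53/LQ/HSQ.lean`), and the
primes `p > z ≥ |a|` dividing `|a| h` are those dividing `h`: `JP z (|a| h) = JP z h`. Last part: all factors `p/(p-1)` are `≥ 1`. -/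
def S_SPJ : Prop := ∀ (z Y K : ℕ) (H : Fin K → ℕ) (q : Fin K → Polynomial ℤ), 3 ≤ z → Sys 2 z Y (Y ^ 2) H q → Sq q → ∀ i, ∀ n ∈ Ioc Y (2 * Y), ∀ m ∈ Ioc Y (2 * Y), n ≠ m →
  vq (q i) n ≠ vq (q i) m ∧ SP z (H i) (dst (vq (q i) n) (vq (q i) m)) ≤ JP z (dst (n ^ 2) (m ^ 2)) ∧ 1 ≤ JP z (dst (n ^ 2) (m ^ 2))

/-- **JP2** (from JPOLY' of project LQ). Proof. For `n` fixed apply JPOLY' (`d = 2`, `M = 2K`, `16 K ≤ z`, `Z = 4 Y²`) to `R = X² - C n²`: `R(m) ≠ 0` for `m ≠ n` in `(Y, 2Y]`, `|R(m)| = dst (n²) (m²) ≤ 4Y²`; the sum over `m` is `≤ (Y/W)(1 + C/log z)`; there are at most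
`Y/W + 1 ≤ (Y/W)(1 + 1/4)` values of `n ≡ c`. -/
def S_JP2 : Prop := LQ.S_JPOLY' → ∃ (C z₀ : ℕ), 1 ≤ C ∧ ∀ (z Y K : ℕ), z₀ ≤ z → 16 * K ≤ z → (PW z : ℝ) ^ 2 * Real.log (4 * (Y : ℝ) ^ 2) ^ (C * (K + 1)) ≤ Y → ∀ c e : ZMod (PW z),
  ∑ n ∈ (Ioc Y (2 * Y)).filter (fun n : ℕ => (n : ZMod (PW z)) = c),
    ∑ m ∈ (Ioc Y (2 * Y)).filter (fun m : ℕ => (m : ZMod (PW z)) = e ∧ n ≠ m), JP z (dst (n ^ 2) (m ^ 2)) ^ (2 * K) ≤ ((Y : ℝ) / PW z) ^ 2 * 2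

/-! ## Layer D: the singular series -/

open Classical in
/-- **MBP** (the mean value and the singular series; adapt `Pool/Agent/Q151/LQ/MBQ.lean`). Proof. `|GP q b| = ∏_{p ≤ z} |{x mod p : x ≠ 0, q_i(x) + s_i ≠ 0 for all i}| = ∏ (p - nuP q s p)` (CRT), `vv W = ∏ (1 - 1/p)⁻¹`, so `MbP = Y singPP q s z`.
`GP` is nonempty iff `nuP q s p < p` for all primes `p ≤ z`; for `p > z ≥ d K + 2` the leading coefficients are not divisible by `p` (`0 < |lc| ≤ z`), each `q_i + s_i` has at most `d` roots modulo `p`, so `nuP q s p ≤ d K + 1 < p`. -/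
def S_MBP : Prop := ∀ (d z Y K : ℕ) (q : Fin K → Polynomial ℤ) (s : Fin K → ℕ),
  MbP Y q (fun i => (s i : ZMod (PW z))) = Y * singPP q s z ∧
  (d * K + 2 ≤ z → (∀ i, 1 ≤ (q i).natDegree ∧ (q i).natDegree ≤ d ∧ (q i).leadingCoeff.natAbs ≤ z) → (AdmP q s ↔ (GP q (fun i => (s i : ZMod (PW z)))).Nonempty))

/-- **LMP** (local mean and variance; adapt `Pool/Agent/Q151/LQ/LMQ.lean`). Proof. `1 - nuP/p` is the probability that for a random class `x` one has `x ≠ 0` and all `q_i(x) + s_i ≠ 0`; for `s` uniform in `(ℤ/p)^K` its mean is `(1 - 1/p)^{K+1}`, so `locP` has mean `1`. The mean of its square is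
`p⁻² ∑_{x, y ≠ 0} ∏_i P(s_i ≠ -q_i(x), s_i ≠ -q_i(y))` divided by `(1 - 1/p)^{2K+2}`, i.e. at most `(p-1)⁻² ∑_{x,y ≠ 0} (1 + 1/(p-1))^κ`, `κ = κ(x, y) ≤ K` the number of `i` with `q_i(x) = q_i(y)` (`(1 - 2/p)/(1 - 1/p)² ≤ 1`). As `κ/(p-1) ≤ 1/4`, `(1 + 1/(p-1))^κ ≤ 1 + 2κ/(p-1)`, and `∑_{x,y} κ ≤ K (p-1) d`
(`q_i` is not constant modulo `p`: for each `x` at most `d` values `y`). So `E locP² ≤ 1 + 2dK/(p-1)² ≤ 1 + 8dK/p²`. In counting form: -/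
def S_LMP : Prop := ∀ (d p K : ℕ) (q : Fin K → Polynomial ℤ), p.Prime → 8 * d * (K + 1) ≤ p → (∀ i, 1 ≤ (q i).natDegree ∧ (q i).natDegree ≤ d ∧ ¬ (p : ℤ) ∣ (q i).leadingCoeff) →
  ∑ s ∈ Fintype.piFinset (fun _ : Fin K => range p), (locP q s p - 1) = 0 ∧
  ∑ s ∈ Fintype.piFinset (fun _ : Fin K => range p), (locP q s p - 1) ^ 2 ≤ 16 * d * K / (p : ℝ) ^ 2 * (p : ℝ) ^ K

/-- **VARP** (from LMP, SQ2; adapt `Pool/Agent/Q151/LQ/VARQ.lean`, `locQ` becomes `locP`). Proof. As for `S_VARQ` (`LQ/Stm2.lean`): `|locP - 1| ≤ 1` as `nuP ≤ dK + 1`, `8 d (K + 1) ≤ z < p` (if `d = 0` then `K = 0` and `locP = 1`). -/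
def S_VARP : Prop := S_LMP → LQ.S_SQ2 → ∃ C : ℝ, 0 < C ∧ ∀ (d z w Y X K : ℕ) (H : Fin K → ℕ) (q : Fin K → Polynomial ℤ), 2 ≤ z → 8 * d * (K + 1) ≤ z → Sys d z Y X H q → 16 * (K + 1) * (w : ℝ) ^ 4 * PW z ≤ X →
  ∀ b : Fin K → ZMod (PW z),
  ∑ s ∈ SbQ H b, (∑ p ∈ (Ioc z w).filter Nat.Prime, (locP q s p - 1)) ^ 2 ≤ (C / Real.log z + 16 * (K + 1) * (w : ℝ) ^ 4 * PW z / X) * (SbQ H b).card ∧
  ∑ s ∈ SbQ H b, ∑ p ∈ (Ioc z w).filter Nat.Prime, (locP q s p - 1) ^ 2 ≤ (C / Real.log z + 16 * (K + 1) * (w : ℝ) ^ 4 * PW z / X) * (SbQ H b).card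

/-- conclusion of `S_VARP` -/
def S_VARP' : Prop := ∃ C : ℝ, 0 < C ∧ ∀ (d z w Y X K : ℕ) (H : Fin K → ℕ) (q : Fin K → Polynomial ℤ), 2 ≤ z → 8 * d * (K + 1) ≤ z → Sys d z Y X H q → 16 * (K + 1) * (w : ℝ) ^ 4 * PW z ≤ X →
  ∀ b : Fin K → ZMod (PW z),
  ∑ s ∈ SbQ H b, (∑ p ∈ (Ioc z w).filter Nat.Prime, (locP q s p - 1)) ^ 2 ≤ (C / Real.log z + 16 * (K + 1) * (w : ℝ) ^ 4 * PW z / X) * (SbQ H b).card ∧
  ∑ s ∈ SbQ H b, ∑ p ∈ (Ioc z w).filter Nat.Prime, (locP q s p - 1) ^ 2 ≤ (C / Real.log z + 16 * (K + 1) * (w : ℝ) ^ 4 * PW z / X) * (SbQ H b).card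

open Classical in
/-- **TAILP** (from VARP'; adapt `Pool/Agent/Q151/LQ/TAILQ.lean`, with `singPP`, `locP`, `nuP ≤ d K + 1`). -/
def S_TAILP : Prop := S_VARP' → ∀ ε : ℝ, 0 < ε → ∃ (C : ℝ) (X₀ z₀ : ℕ), 0 < C ∧ ∀ (d z w Y X K : ℕ) (H : Fin K → ℕ) (q : Fin K → Polynomial ℤ), X₀ ≤ X → z₀ ≤ z → 1 ≤ d → 8 * d * (K + 1) ≤ z → Sys d z Y X H q →
  (z : ℝ) ≤ Real.log X → (PW z : ℝ) ^ 20 ≤ X → z ≤ w → (w : ℝ) ^ 20 ≤ X → ∀ b : Fin K → ZMod (PW z),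
  (((SbQ H b).filter fun s => ¬ (|singPP q s w - singPP q s z| ≤ ε * singPP q s z)).card : ℝ) ≤ C / Real.log z * (SbQ H b).card

open Classical in
/-- **FARP** (the primes `p > w0 (Y²)`; adapt `Pool/Agent/Q150/LQ/FARQ.lean`). Proof. As for `S_FARQ` (`LQ/Stm2.lean`), with the extra root `0`: for `p > w0`, `0 ≤ 1 + ∑_i (1 + J_i(p)) - nuP q s p ≤ 2 ∑_{i<j} [p | Res_{ij}] + ∑_i [p | q_i(0) + s_i]` (`0` is a root of `q_i + s_i` modulo `p`), and the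
`s` with some `q_i(0) + s_i = 0` (one value of `s_i` for each `i`) are put into the bad tuples; `q_i(0) + s_i` is at most `Y^{20}` in absolute value, so it has at most `1000` prime factors `> w0`. `|log locP q s p + ∑_i J_i(p)/p| ≤ 16 (K+2)²/p² + 4 (∑_{i<j} [p | Res_{ij}] + ∑_i [p | q_i(0) + s_i])/p`. -/
def S_FARP : Prop := LQ.S_CHT → ∀ ε : ℝ, 0 < ε → ∃ X₀ : ℕ, ∀ (z Y K : ℕ) (H : Fin K → ℕ) (q : Fin K → Polynomial ℤ), X₀ ≤ Y → 32 * (K + 1) ≤ z → Sys 2 z Y (Y ^ 2) H q → (∀ i, (q i).natDegree = 2) →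
  (z : ℝ) ≤ Real.log Y → (PW z : ℝ) ^ 40 ≤ (Y : ℝ) ^ 2 → ∀ b : Fin K → ZMod (PW z),
  (((SbQ H b).filter fun s => ¬ (AdmP q s → 0 < singP q s ∧ Tendsto (singPP q s) atTop (nhds (singP q s)) ∧
    |singP q s - singPP q s (w0 (Y ^ 2))| ≤ ε * singPP q s (w0 (Y ^ 2)))).card : ℝ) ≤ ε * (SbQ H b).card

/-- **CONVP** (the singular series of a fixed system converges; adapt `Pool/Agent/Q241/LQ/CONVQ.lean`). Proof. For large `p` the polynomials `x`, `q_i + s_i` have no common roots modulo `p` (`q_i(0) + s_i ≠ 0`, otherwise the discriminant is the square of the coefficient of `x`; the resultants are not `0`), so `nuP q s p = 1 + ∑_i (1 + J_i(p))`. -/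
def S_CONVP : Prop := ∀ (K : ℕ) (q : Fin K → Polynomial ℤ) (s : Fin K → ℕ), (∀ i, (q i).natDegree = 2) →
  (∀ i, ¬ IsSquare ((q i).coeff 1 ^ 2 - 4 * (q i).coeff 2 * ((q i).coeff 0 + s i))) →
  (∀ i j, i ≠ j → ¬ ∃ a b : ℤ, a ≠ 0 ∧ b ≠ 0 ∧ Polynomial.C a * (q i + Polynomial.C (s i : ℤ)) = Polynomial.C b * (q j + Polynomial.C (s j : ℤ))) → AdmP q s →
  Tendsto (singPP q s) atTop (nhds (singP q s)) ∧ 0 < singP q s

/-! ## Layer E: transfer -/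

open Classical in
/-- **TRANSP** (from the classes to all admissible constants; adapt `Pool/Agent/Q210/LQ/TRANSQ.lean`). -/
def S_TRANSP : Prop := S_MBP → ∀ (d z Y X K : ℕ) (H : Fin K → ℕ) (q : Fin K → Polynomial ℤ) (E : (Fin K → ℕ) → Prop) (η : ℝ), d * K + 2 ≤ z → Sys d z Y X H q → 8 * (K + 1) * PW z ≤ X →
  ∑ b ∈ AdP (PW z) q, (((SbQ H b).filter fun s => E s).card : ℝ) / (SbQ H b).card ≤ η * (AdP (PW z) q).card →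
  (((ATP H q).filter fun s => E s).card : ℝ) ≤ 2 * η * (ATP H q).card

/-- **WCBP**: the weighted count and the count (adapt `Pool/Agent/Q68/LQ/WCBQ.lean`; `wt n = log n` for the primes `n` in `(Y, 2Y]`). -/
def S_WCBP : Prop := ∀ (d z Y X K : ℕ) (H : Fin K → ℕ) (q : Fin K → Polynomial ℤ) (s : Fin K → ℕ), 3 ≤ X → 3 ≤ Y → Sys d z Y X H q → (∀ i, s i ∈ Icc 1 (H i)) →
  (cntP Y q s : ℝ) * (Real.log Y * ∏ i, Real.log (H i)) ≤ wcP Y q s ∧ wcP Y q s ≤ cntP Y q s * (Real.log (3 * Y) * ∏ i, Real.log (3 * H i))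

end Pool.Agent.Q145.PQ
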