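import Pool.Agent.Q145.PQ.InpP
import Pool.Agent.Q145.PQ.MOM1P
import Pool.Agent.Q145.LQ.All
import Pool.Agent.Q53.LQ.CHT
import Pool.Agent.Q149.PQ.LAWP
import Pool.Agent.Q149.PQ.UNIP
import Pool.Agent.Q149.PQ.MOM2P
import Pool.Agent.Q176.PQ.TRANSP
import Pool.Agent.Q177.PQ.VARP
import Pool.Agent.Q198.PQ.HSSP
import Pool.Agent.Q53.PQ.CONVP
import Pool.Agent.Q53.PQ.FARP
import Pool.Agent.Q53.PQ.WCBP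
import Pool.Agent.Q68.PQ.MBP
import Pool.Agent.Q68.PQ.LMP
import Pool.Agent.Q145.PQ.JP2c
import Pool.Agent.Q150.PQ.JPB
import Pool.Agent.Q31.PQ.TAILP
import Pool.Agent.Q38.PQ.SPJ

/-!
# Project PQ: assembly of all parts
-/

set_option autoImplicit false

namespace Pool.Agent.Q145.PQ

open Finset Filter
open Pool.Agent.Q145.SZ
open Pool.Agent.Q145.LS (SUFP SUFc case1 case2 dich)

theorem anyc (A : ℕ) : ANY A := by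
  obtain ⟨B, C₀, hB, hC₀, h⟩ := LS.anL ms' Pool.Agent.Q145.LS.t_EQ2 LS.h2' Pool.Agent.Q111.SZ.t_PWB A
  exact ⟨B, C₀, hB, hC₀, fun z X ω T a1 a2 a3 a4 a5 a6 a7 a8 a9 a10 => (h z X ω T a1 a2 a3 a4 a5 a6 a7 a8 a9 a10).2⟩

theorem jp2' : S_JP2' := JP2c.main (Pool.Agent.Q53.LQ.JPOLY.main LQ.sq2)

theorem vbp (hssp : S_HSSP') (spj : S_SPJ) : ∃ a₀ κ : ℕ, 64 ≤ κ ∧ VBP a₀ κ := by
  obtain ⟨C, hC, hl⟩ := Pool.Agent.Q38.LQ.t_LOCQ LQ.t_ABS 2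
  obtain ⟨l1, l2⟩ := Pool.Agent.Q149.PQ.t_LAWP 2 C hC (LQ.t_CRTQ 2 C hC hl)
  exact var_boundP hC l1 l2 Pool.Agent.Q149.PQ.t_UNIP t_MOM1P Pool.Agent.Q149.PQ.t_MOM2P hssp jp2' spj LQ.t_ESQ t_SIEVE LQ.t_CCB Pool.Agent.Q111.SZ.t_PWB t_US

theorem sufp (hssp : S_HSSP') (spj : S_SPJ) (tail : S_TAILP') : SUFP PQCP := by
  obtain ⟨a₀, κ, hκ, hv⟩ := vbp hssp spj
  exact sufP LQ.t_ANQ Pool.Agent.Q53.LQ.H2U.main anyc LQ.t_PRQ LQ.t_TAU tail (t_FARP LQ.t_CHT) t_MBP Pool.Agent.Q176.PQ.t_TRANSP t_WCBP hκ hv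

theorem jpb' : S_JPB' := t_JPB Pool.Agent.Q145.LS.t_BT Pool.Agent.Q145.LS.t_SQ2

theorem hssp' : S_HSSP' := Pool.Agent.Q198.PQ.t_HSSP jpb' Pool.Agent.Q145.LS.t_YNG

theorem tailp' : S_TAILP' := t_TAILP (t_VARP t_LMP LQ.sq2)

theorem sufp' : SUFP PQCP := sufp hssp' Pool.Agent.Q38.PQ.t_SPJ tailp'

theorem mainP1 (A ε : ℝ) (hε : 0 < ε) : ∀ᶠ Y : ℕ in atTop, ∀ Q : ℕ, (Q : ℝ) ≤ A * Real.log (Real.log Y) → PQCP Y Q ε :=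
  case1 zr' Pool.Agent.Q111.SZ.t_PWB Pool.Agent.Q177.SZ.t_SIEG sufp' A ε hε

theorem mainP2 : ∃ c : ℝ, 0 < c ∧ ∀ ε : ℝ, 0 < ε → ∃ᶠ Y : ℕ in atTop, ∀ Q : ℕ, (Q : ℝ) ≤ c * (Real.log Y / Real.log (Real.log Y)) → PQCP Y Q ε :=
  case2 Pool.Agent.Q111.SZ.t_PWB sufp' good'

theorem mainP3 : ∃ c C : ℝ, 0 < c ∧ 0 < C ∧ ∀ ε : ℝ, 0 < ε → ∀ᶠ Y : ℕ in atTop,
      (∀ (r : ℕ) [NeZero r], 1 < r → (r : ℝ) ≤ Real.exp (Real.log Y / Real.log (Real.log Y)) → ∀ χ : DirichletCharacter ℂ r, χ.IsPrimitive → χ ^ 2 = 1 →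
        ∀ β : ℝ, χ.LFunction β = 0 → β ≤ 1 - C * (Real.log (Real.log Y) / Real.log Y)) →
      ∀ Q : ℕ, (Q : ℝ) ≤ c * (Real.log Y / Real.log (Real.log Y)) → PQCP Y Q ε :=
  dich zr' Pool.Agent.Q111.SZ.t_PWB sufp'

end Pool.Agent.Q145.PQ
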