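import Pool.Agent.Q145.PQ.VarP

/-!
# Project PQ: from the variance to the formula
-/

set_option autoImplicit false

namespace Pool.Agent.Q145.PQ

open Finset Filter
open Pool.Agent.Q145.SZ
open Pool.Agent.Q145.LS (uni th)
open Pool.Agent.Q145.LQ (vq ev Sys SbQ JP CC CRTQ GQ w0 elemQ scaleQ H1Q H2D exq cast_vq B2_triv)

open Classical in
/-- the Hardy-Littlewood formula with the series `S` and precision `ε` holds for all but a proportion `ε` of the admissible constants -/
def HLP {K : ℕ} (Y : ℕ) (H : Fin K → ℕ) (q : Fin K → Polynomial ℤ) (S : (Fin K → ℕ) → ℝ) (ε : ℝ) : Prop :=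
  (((ATP H q).filter fun s => ¬ (|cntP Y q s * (Real.log Y * ∏ i, Real.log (H i)) - S s * Y| ≤ ε * (S s * Y))).card : ℝ) ≤ ε * (ATP H q).card

open Classical in
/-- `S` is close to the partial product at `z` for most admissible constants in each class -/
def NearP {K : ℕ} (z : ℕ) (H : Fin K → ℕ) (q : Fin K → Polynomial ℤ) (S : (Fin K → ℕ) → ℝ) (e δ : ℝ) : Prop := ∀ b : Fin K → ZMod (PW z),
  (((SbQ H b).filter fun s => ¬ (AdmP q s → |S s - singPP q s z| ≤ e * singPP q s z)).card : ℝ) ≤ δ * (SbQ H b).card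

lemma prod_log_leP {K : ℕ} {Y : ℕ} {H : Fin K → ℕ} {δ : ℝ} (hL : 0 < Real.log Y) (hY : (0 : ℝ) < Y) (hYH : ∀ i, Y ≤ H i)
    (hδ : 2 / Real.log Y ≤ δ) :
    Real.log (3 * Y) * ∏ i, Real.log (3 * H i) ≤ (Real.log Y * ∏ i, Real.log (H i)) * (1 + δ) ^ (K + 1) := by
  have h1 := LQ.prod_log_leQ hL hY hYH hδ
  have h3 : Real.log (3 * (Y : ℝ)) = Real.log 3 + Real.log Y := Real.log_mul (by norm_num) (by linarith)
  have h4 : Real.log 3 ≤ 2 := by
    have := Real.log_le_sub_one_of_pos (by norm_num : (0 : ℝ) < 3)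
    linarith
  have h6 : 2 ≤ δ * Real.log Y := by rwa [div_le_iff₀ hL] at hδ
  have h7 : 0 ≤ δ := by
    refine le_trans ?_ hδ
    positivity
  have h8 : Real.log (3 * (Y : ℝ)) ≤ Real.log Y * (1 + δ) := by rw [h3]; linarith
  have h9 : 0 ≤ ∏ i, Real.log (3 * (H i : ℝ)) := by
    apply prod_nonneg
    intro i _
    have : (0 : ℝ) < H i := lt_of_lt_of_le hY (by exact_mod_cast hYH i)
    have h10 : Real.log (3 * (H i : ℝ)) = Real.log 3 + Real.log (H i) := Real.log_mul (by norm_num) (by linarith)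
    rw [h10]
    exact add_nonneg (Real.log_nonneg (by norm_num)) (Real.log_natCast_nonneg _)
  calc Real.log (3 * (Y : ℝ)) * ∏ i, Real.log (3 * (H i : ℝ)) ≤ (Real.log Y * (1 + δ)) * ((∏ i, Real.log (H i)) * (1 + δ) ^ K) := by
        apply mul_le_mul h8 h1 h9 (by positivity)
    _ = _ := by rw [pow_succ]; ring

open Classical in
theorem hls_boundP {a₀ κ : ℕ} (hκ : 64 ≤ κ) (vb : VBP a₀ κ) (mbs : S_MBP) (tr : S_TRANSP) (wcb : S_WCBP) (pb : S_PWB) :
    ∀ ε : ℝ, 0 < ε → ∃ M : ℝ, 64 ≤ M ∧ ∀ (z Y K : ℕ) (H : Fin K → ℕ) (q : Fin K → Polynomial ℤ) (D : Fin K → Finset ℕ), M ≤ Real.log (Real.log ((Y ^ 2 : ℕ) : ℝ)) →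
      64 * Real.log (Real.log ((Y ^ 2 : ℕ) : ℝ)) ≤ z → (κ : ℝ) * z * Real.log (Real.log ((Y ^ 2 : ℕ) : ℝ)) ≤ Real.log Y → 96 * (K + 1) ≤ z → Sys 2 z Y (Y ^ 2) H q → Sq q →
      (∀ i, H1Q (2 * (a₀ + 11)) z (H i) ∧ H2D (2 * (a₀ + 11)) z (H i) (D i)) → LS.EQc (2 * (a₀ + 11)) z Y → LS.THc (2 * (a₀ + 11)) Y →
      (((exq Y q D).card : ℝ) ≤ (Y : ℝ) ^ 2 / (PW z : ℝ) ^ (2 * (a₀ + 8))) →
      ∀ S : (Fin K → ℕ) → ℝ, NearP z H q S (min ε 1 / 16) (ε / 8) → HLP Y H q S ε := by
  intro ε hε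
  set e : ℝ := min ε 1 / 16 with he
  have hε1 : min ε 1 ≤ 1 := min_le_right _ _
  have hεε : min ε 1 ≤ ε := min_le_left _ _
  have hε0 : 0 < min ε 1 := by positivity
  have he0 : 0 < e := by positivity
  obtain ⟨M₁, hM₁, hvb⟩ := vb (e ^ 2 * (ε / 8)) (by positivity)
  set M : ℝ := 64 + M₁ + 1 / e + 3 with hM
  have q4 : 0 < 1 / e := by positivity
  have hM64 : 64 ≤ M := by linarith
  have hM1 : 1 ≤ M := by linarith
  refine ⟨M, hM64, ?_⟩
  intro z Y K H q D hX hz hzY hK hS hSq hIN hEQ hTH hex S hnear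
  have hv := hvb z Y K H q D (by linarith) hz hzY hK hS hSq hIN hEQ hTH hex
  have hY1 : 1 ≤ Y := by
    rcases Nat.eq_zero_or_pos Y with h | h
    · rw [h] at hX
      simp at hX
      linarith
    · exact h
  have hYX : Y ≤ Y ^ 2 := Nat.le_self_pow (by norm_num) Y
  obtain ⟨X, hXdef⟩ : ∃ X : ℕ, X = Y ^ 2 := ⟨_, rfl⟩
  rw [← hXdef] at hX hz hzY hS hYX
  have hlpos : 0 ≤ (z : ℝ) * Real.log (Real.log X) := by
    have : 0 ≤ Real.log (Real.log X) := by linarith
    positivity
  have hκr : (64 : ℝ) ≤ κ := by exact_mod_cast hκ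
  have hzY' : 64 * z * Real.log (Real.log X) ≤ Real.log Y := by nlinarith
  obtain ⟨hL0, hLM, hzM, hzL, hzl, hXe, hYe, hLe, hl64, hlL, hYXl⟩ := elemQ hM64 hX hYX hz hzY'
  have hM0 : 0 < M := by linarith
  have hz0 : (0 : ℝ) < z := by linarith
  have hz64 : 64 ≤ z := by
    have : (64 : ℝ) ≤ z := by linarith
    exact_mod_cast this
  have hXL : Real.log X ≤ X := by
    have := Real.add_one_le_exp (Real.log X)
    rw [← hXe] at this; linarith
  have hX3 : 3 ≤ X := by
    have : (3 : ℝ) ≤ X := by linarith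
    exact_mod_cast this
  have hX0 : (0 : ℝ) < X := by linarith
  have hY0 : (0 : ℝ) < Y := by exact_mod_cast hY1
  have hLX2 : Real.log X = 2 * Real.log Y := by
    rw [hXdef]; push_cast; rw [Real.log_pow]; norm_num
  have hLY0 : 0 < Real.log Y := by linarith
  have hY3 : 3 ≤ Y := by
    have h1 := Real.add_one_le_exp (Real.log Y)
    rw [← hYe] at h1
    have : (3 : ℝ) ≤ Y := by linarith
    exact_mod_cast this
  have hWe : (PW z : ℝ) ≤ Real.exp (2 * z) := PW_le pb z
  have hKz' : (96 : ℝ) * (K + 1) ≤ z := by exact_mod_cast hK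
  have hK0 : (0 : ℝ) ≤ K := by positivity
  have hKz : (32 : ℝ) * (K + 1) ≤ z := by linarith
  have hdK : 2 * K + 2 ≤ z := by omega
  have h8 : 8 * (K + 1) * PW z ≤ X := by
    have : (8 * ((K : ℝ) + 1)) * PW z ≤ X := by
      calc (8 * ((K : ℝ) + 1)) * PW z ≤ Real.exp z * Real.exp (2 * z) := by
            gcongr
            have : (z : ℝ) + 1 ≤ Real.exp z := Real.add_one_le_exp _
            linarith
        _ = Real.exp (3 * z) := by rw [← Real.exp_add]; ring_nf
        _ ≤ Real.exp (Real.log X) := Real.exp_le_exp.2 (by linarith)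
        _ = X := hXe.symm
    exact_mod_cast this
  have hXH : ∀ i, X ≤ H i := fun i => (hS.scale i).1
  have hYH : ∀ i, Y ≤ H i := fun i => hYX.trans (hXH i)
  have hpow : Real.log (3 * Y) * ∏ i, Real.log (3 * H i) ≤ (Real.log Y * ∏ i, Real.log (H i)) * (1 + e) := by
    have h5 : ((K + 1 : ℕ) : ℝ) * (2 / Real.log Y) ≤ 1 / (16 * M) := by
      have h7 : 64 * ((z : ℝ) * M) ≤ Real.log Y := by
        have : (z : ℝ) * M ≤ z * Real.log (Real.log X) := by gcongr
        linarith
      have h9 : M * ((K : ℝ) + 1) ≤ M * (z / 96) := by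
        apply mul_le_mul_of_nonneg_left _ hM0.le
        linarith
      push_cast
      rw [← mul_div_assoc, div_le_div_iff₀ hLY0 (by positivity)]
      linarith
    have h6 : 1 / (16 * M) ≤ e / 2 := by
      rw [div_le_div_iff₀ (by positivity) (by norm_num)]
      have h7 : 1 / e ≤ M := by linarith
      rw [div_le_iff₀ he0] at h7
      linarith
    have he1 : e ≤ 1 := by rw [he]; linarith
    refine (prod_log_leP hLY0 hY0 hYH le_rfl).trans ?_
    have h7 : 0 ≤ Real.log Y * ∏ i, Real.log (H i) := by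
      apply mul_nonneg hLY0.le
      apply prod_nonneg
      intro i _
      exact Real.log_natCast_nonneg _
    apply mul_le_mul_of_nonneg_left _ h7
    refine (one_add_pow_le (K := K + 1) (by positivity) (h5.trans (by linarith))).trans ?_
    linarith
  -- apply TRANS
  obtain ⟨E, hE⟩ : ∃ E : (Fin K → ℕ) → Prop, ∀ s, E s ↔ ¬ (|cntP Y q s * (Real.log Y * ∏ i, Real.log (H i)) - S s * Y| ≤ ε * (S s * Y)) :=
    ⟨_, fun _ => Iff.rfl⟩
  have hfin : ∑ b ∈ AdP (PW z) q, (((SbQ H b).filter fun s => E s).card : ℝ) /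
      (SbQ H b).card ≤ (ε / 4) * (AdP (PW z) q).card := by
    have hb : ∀ b ∈ AdP (PW z) q, (((SbQ H b).filter fun s => E s).card : ℝ) /
        (SbQ H b).card ≤ (e ^ 2)⁻¹ * ((∑ s ∈ SbQ H b, (wcP Y q s / MbP Y q b - 1) ^ 2) / ((SbQ H b).card : ℝ)) + ε / 8 := by
      intro b hb
      rcases Nat.eq_zero_or_pos (SbQ H b).card with h0 | h0
      · rw [h0]; simp; positivity
      have h0' : (0 : ℝ) < (SbQ H b).card := by exact_mod_cast h0
      have hsub : (SbQ H b).filter (fun s => E s) ⊆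
          (SbQ H b).filter (fun s => e < |wcP Y q s / MbP Y q b - 1|) ∪ (SbQ H b).filter (fun s => ¬ (AdmP q s → |S s - singPP q s z| ≤ e * singPP q s z)) := by
        intro s hs
        rw [mem_filter] at hs
        obtain ⟨hs1, hs2⟩ := hs
        rw [hE] at hs2
        rw [mem_union, mem_filter, mem_filter]
        by_contra hcon
        rw [not_or] at hcon
        obtain ⟨c1, c2⟩ := hcon
        have c1 : |wcP Y q s / MbP Y q b - 1| ≤ e := by
          by_contra h
          exact c1 ⟨hs1, not_le.1 h⟩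
        have c2 : AdmP q s → |S s - singPP q s z| ≤ e * singPP q s z := by
          by_contra h
          exact c2 ⟨hs1, h⟩
        apply hs2
        have hsb : (fun i => ((s i : ℕ) : ZMod (PW z))) = b := by
          funext i
          have := Fintype.mem_piFinset.1 hs1 i
          unfold cls at this
          exact (mem_filter.1 this).2
        have hsX : ∀ i, s i ∈ Icc 1 (H i) := fun i => by
          have := Fintype.mem_piFinset.1 hs1 i
          unfold cls at this
          exact (mem_filter.1 this).1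
        have hmb := mbs 2 z Y K q s
        rw [hsb] at hmb
        have hMb := hmb.1
        have hne : (GP q b).Nonempty := by
          unfold AdP at hb
          rw [mem_filter] at hb
          exact hb.2
        have hadm : AdmP q s := (hmb.2 hdK fun i => ⟨(hS.deg i).1, (hS.deg i).2, hS.lead i⟩).2 hne
        have c2 := c2 hadm
        have hMb0 : 0 < MbP Y q b := by
          have : (0 : ℝ) < (GP q b).card := by exact_mod_cast card_pos.2 hne
          have hv := vv_pos z
          have hW : (0 : ℝ) < PW z := by exact_mod_cast PW_pos z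
          unfold MbP
          exact mul_pos (div_pos (mul_pos hY0 this) hW) (pow_pos hv (K + 1))
        have hbd := wcb 2 z Y X K H q s hX3 hY3 hS hsX
        have e1 : |wcP Y q s - MbP Y q b| ≤ e * MbP Y q b := by
          have : wcP Y q s - MbP Y q b = (wcP Y q s / MbP Y q b - 1) * MbP Y q b := by field_simp
          rw [this, abs_mul, abs_of_pos hMb0]
          gcongr
        have e2 : |S s * Y - MbP Y q b| ≤ e * MbP Y q b := by
          rw [hMb]
          have : S s * Y - Y * singPP q s z = (S s - singPP q s z) * Y := by ring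
          rw [this, abs_mul, abs_of_pos hY0]
          calc _ ≤ e * singPP q s z * Y := by gcongr
            _ = _ := by ring
        apply final_num (w := wcP Y q s) (e := e) (S := MbP Y q b) he0 (by rw [he]; linarith) (by rw [he]; linarith) hMb0 e1 e2 hbd.1
        calc wcP Y q s ≤ cntP Y q s * (Real.log (3 * Y) * ∏ i, Real.log (3 * H i)) := hbd.2
          _ ≤ cntP Y q s * ((Real.log Y * ∏ i, Real.log (H i)) * (1 + e)) := by gcongr
          _ = _ := by ring
      have hc1 : (((SbQ H b).filter fun s => e < |wcP Y q s / MbP Y q b - 1|).card : ℝ) ≤ (e ^ 2)⁻¹ * ∑ s ∈ SbQ H b, (wcP Y q s / MbP Y q b - 1) ^ 2 := by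
        rw [card_eq_sum_ones, Nat.cast_sum, mul_sum]
        push_cast
        refine le_trans ?_ (sum_le_sum_of_subset_of_nonneg (filter_subset (fun s => e < |wcP Y q s / MbP Y q b - 1|) (SbQ H b)) (fun s _ _ => by positivity))
        apply sum_le_sum
        intro s hs
        rw [mem_filter] at hs
        have h3 : e ^ 2 ≤ (wcP Y q s / MbP Y q b - 1) ^ 2 := by
          rw [← sq_abs (wcP Y q s / MbP Y q b - 1)]
          have := hs.2
          gcongr
        rw [inv_mul_eq_div, le_div_iff₀ (by positivity)]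
        linarith
      have hc2 := hnear b
      have hc3 : (((SbQ H b).filter fun s => E s).card : ℝ) ≤
          (e ^ 2)⁻¹ * ∑ s ∈ SbQ H b, (wcP Y q s / MbP Y q b - 1) ^ 2 + ε / 8 * (SbQ H b).card := by
        have h3 := card_le_card hsub
        have h4 := h3.trans (card_union_le _ _)
        have h5 : (((SbQ H b).filter fun s => E s).card : ℝ) ≤
          (((SbQ H b).filter fun s => e < |wcP Y q s / MbP Y q b - 1|).card : ℝ) + (((SbQ H b).filter (fun s => ¬ (AdmP q s → |S s - singPP q s z| ≤ e * singPP q s z))).card : ℝ) := by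
          exact_mod_cast h4
        linarith
      rw [div_le_iff₀ h0']
      refine hc3.trans (le_of_eq ?_)
      rw [add_mul, mul_assoc (e ^ 2)⁻¹, div_mul_cancel₀ _ h0'.ne']
    have hA0 : (0 : ℝ) ≤ ((AdP (PW z) q).card : ℝ) := Nat.cast_nonneg _
    have he2 : (0 : ℝ) ≤ (e ^ 2)⁻¹ := by positivity
    have hv2 := mul_le_mul_of_nonneg_left hv he2
    calc _ ≤ ∑ b ∈ AdP (PW z) q, ((e ^ 2)⁻¹ * ((∑ s ∈ SbQ H b, (wcP Y q s / MbP Y q b - 1) ^ 2) / ((SbQ H b).card : ℝ)) + ε / 8) := sum_le_sum hb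
      _ = (e ^ 2)⁻¹ * ∑ b ∈ AdP (PW z) q, ((∑ s ∈ SbQ H b, (wcP Y q s / MbP Y q b - 1) ^ 2) / ((SbQ H b).card : ℝ)) + ε / 8 * (AdP (PW z) q).card := by
        rw [sum_add_distrib, ← mul_sum, sum_const, nsmul_eq_mul]; ring
      _ ≤ (e ^ 2)⁻¹ * (e ^ 2 * (ε / 8) * ((AdP (PW z) q).card : ℝ)) + ε / 8 * (AdP (PW z) q).card := add_le_add hv2 le_rfl
      _ = _ := by
        have : (e ^ 2)⁻¹ * (e ^ 2 * (ε / 8) * ((AdP (PW z) q).card : ℝ)) = ε / 8 * ((AdP (PW z) q).card : ℝ) := by
          rw [← mul_assoc, ← mul_assoc, inv_mul_cancel₀ (by positivity), one_mul]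
        rw [this]; ring
  have ht := tr mbs 2 z Y X K H q E (ε / 4) hdK hS h8 hfin
  have hAT : (0 : ℝ) ≤ ((ATP H q).card : ℝ) := Nat.cast_nonneg _
  have ht2 : (((ATP H q).filter fun s => E s).card : ℝ) ≤ ε * ((ATP H q).card : ℝ) := by
    refine ht.trans ?_
    have := mul_nonneg hε.le hAT
    linarith
  unfold HLP
  have hfe : (ATP H q).filter (fun s => ¬ (|cntP Y q s * (Real.log Y * ∏ i, Real.log (H i)) - S s * Y| ≤ ε * (S s * Y))) = (ATP H q).filter fun s => E s :=
    filter_congr fun s _ => (hE s).symm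
  rw [hfe]
  exact ht2

end Pool.Agent.Q145.PQ
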