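import Pool.Agent.Q145.PQ.NearP

/-!
# Project PQ: the sufficiency statement
-/

set_option autoImplicit false

namespace Pool.Agent.Q145.PQ

open Finset Filter
open Pool.Agent.Q145.SZ
open Pool.Agent.Q145.LS (uni th SUFP SUFc)
open Pool.Agent.Q145.LQ (vq ev Sys SbQ JP CC CRTQ GQ w0 elemQ scaleQ H1Q H2D exq cast_vq B2_triv w0_pow_le le_w0 near_comb INQ inputs loglog_sq exq_quad)

/-- the primes at the scale `X` -/
def ANY (A : ℕ) : Prop := ∃ (B : ℕ) (C₀ : ℝ), 1 ≤ B ∧ 64 ≤ C₀ ∧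
    ∀ (z X : ℕ) (ω T : ℝ), C₀ ≤ Real.log (Real.log X) → C₀ * Real.log (Real.log X) ≤ z → C₀ * z * Real.log (Real.log X) ≤ Real.log X →
      0 < ω → ω ≤ 1 / 4 → C₀ * Real.log (Real.log X) ≤ ω * Real.log X → 0 < T → 120 * B * z ≤ Real.log T → 10 * √(Real.log X) ≤ Real.log T →
      ZF (PW z ^ B) ω T → LS.EQc A z X ∧ LS.THc A X

lemma zf_monoP {F F' : ℕ} {ω T : ℝ} (h : F ≤ F') (hZ : ZF F' ω T) : ZF F ω T := by
  intro f _ h1 h2
  exact hZ f h1 (h2.trans h)

lemma sq_deg {K : ℕ} {q : Fin K → Polynomial ℤ} (h : Sq q) (i : Fin K) (h1 : 1 ≤ (q i).natDegree) : (q i).natDegree = 2 := by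
  obtain ⟨a, c, e⟩ := h i
  rw [e] at h1 ⊢
  by_cases ha : a = 0
  · rw [ha] at h1
    simp at h1
  · apply le_antisymm
    · compute_degree
    · apply Polynomial.le_natDegree_of_ne_zero
      rw [Polynomial.coeff_add, Polynomial.coeff_C_mul, Polynomial.coeff_X_pow, Polynomial.coeff_C]
      simpa using ha

open Classical in
/-- the series of most admissible constants converges to a positive number -/
theorem conv_quadP (far : S_FARP') (mbs : S_MBP) (tr : S_TRANSP) : ∀ ε : ℝ, 0 < ε → ∃ M : ℝ, 64 ≤ M ∧ ∀ (z Y K : ℕ) (H : Fin K → ℕ) (q : Fin K → Polynomial ℤ), M ≤ Real.log (Real.log ((Y ^ 2 : ℕ) : ℝ)) →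
    64 * Real.log (Real.log ((Y ^ 2 : ℕ) : ℝ)) ≤ z → 64 * z * Real.log (Real.log ((Y ^ 2 : ℕ) : ℝ)) ≤ Real.log Y → 32 * (K + 1) ≤ z → Sys 2 z Y (Y ^ 2) H q →
    (∀ i, (q i).natDegree = 2) →
    (((ATP H q).filter fun s => ¬ (0 < singP q s ∧ Tendsto (singPP q s) atTop (nhds (singP q s)))).card : ℝ) ≤ ε * (ATP H q).card := by
  intro ε hε
  obtain ⟨Y₀, hf⟩ := far (ε / 2) (by positivity)
  refine ⟨64 + Y₀, by have : (0 : ℝ) ≤ Y₀ := by positivity
                      linarith, ?_⟩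
  have p2 : (0 : ℝ) ≤ Y₀ := by positivity
  intro z Y K H q hX hz hzY hK hS hdeg
  have hM64 : 64 ≤ 64 + (Y₀ : ℝ) := by linarith
  have hY1 : 1 ≤ Y := by
    rcases Nat.eq_zero_or_pos Y with h | h
    · rw [h] at hX
      simp at hX
      linarith
    · exact h
  have hYX : Y ≤ Y ^ 2 := by nlinarith
  obtain ⟨hL0, hLM, hzM, hzL, hzl, hXe, hYe, hLe, hl64, hlL, hYXl⟩ := elemQ hM64 hX hYX hz hzY
  have hz0 : (0 : ℝ) < z := by linarith
  have hzl' : 64 * (z : ℝ) ≤ z * Real.log (Real.log ((Y ^ 2 : ℕ) : ℝ)) := by nlinarith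
  have hzLY : 4096 * (z : ℝ) ≤ Real.log Y := by linarith
  have hY0 : (0 : ℝ) < Y := by exact_mod_cast hY1
  have hLYY : Real.log Y ≤ Y := by
    have := Real.add_one_le_exp (Real.log Y)
    rw [← hYe] at this; linarith
  have hY₀ : Y₀ ≤ Y := by
    have : (Y₀ : ℝ) ≤ Y := by linarith
    exact_mod_cast this
  have hW40 : (PW z : ℝ) ^ 40 ≤ (Y : ℝ) ^ 2 := by
    calc (PW z : ℝ) ^ 40 ≤ (Real.exp (2 * z)) ^ 40 := by gcongr; exact PW_le Pool.Agent.Q111.SZ.t_PWB z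
      _ = Real.exp (80 * z) := by rw [← Real.exp_nat_mul]; ring_nf
      _ ≤ Real.exp (2 * Real.log Y) := Real.exp_le_exp.2 (by linarith)
      _ = (Y : ℝ) ^ 2 := by rw [show (2 : ℝ) = ((2 : ℕ) : ℝ) by norm_num, Real.exp_nat_mul, ← hYe]
  have h8 : 8 * (K + 1) * PW z ≤ Y ^ 2 := by
    have h1 : ((8 * (K + 1) * PW z : ℕ) : ℝ) ≤ ((Y ^ 2 : ℕ) : ℝ) := by
      have hKz : ((32 * (K + 1) : ℕ) : ℝ) ≤ z := by exact_mod_cast hK
      rw [Nat.cast_mul, Nat.cast_mul]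
      push_cast at hKz ⊢
      calc (8 * ((K : ℝ) + 1)) * PW z ≤ Real.exp z * Real.exp (2 * z) := by
            gcongr
            · linarith [Real.add_one_le_exp (z : ℝ)]
            · exact PW_le Pool.Agent.Q111.SZ.t_PWB z
        _ = Real.exp (3 * z) := by rw [← Real.exp_add]; ring_nf
        _ ≤ Real.exp (2 * Real.log Y) := Real.exp_le_exp.2 (by linarith)
        _ = (Y : ℝ) ^ 2 := by rw [show (2 : ℝ) = ((2 : ℕ) : ℝ) by norm_num, Real.exp_nat_mul, ← hYe]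
    exact_mod_cast h1
  have hfb := hf z Y K H q hY₀ hK hS hdeg (by linarith) hW40
  obtain ⟨E, hE⟩ : ∃ E : (Fin K → ℕ) → Prop, ∀ s, E s ↔ ¬ (AdmP q s → 0 < singP q s ∧ Tendsto (singPP q s) atTop (nhds (singP q s))) :=
    ⟨_, fun _ => Iff.rfl⟩
  have ht := tr mbs 2 z Y (Y ^ 2) K H q E (ε / 2) (by omega) hS h8 (by
    calc _ ≤ ∑ _b ∈ AdP (PW z) q, ε / 2 := by
          apply sum_le_sum
          intro b _
          apply div_le_of_le_mul₀ (Nat.cast_nonneg _) (by positivity)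
          refine le_trans ?_ (hfb b)
          have : ((SbQ H b).filter fun s => E s) ⊆
              ((SbQ H b).filter fun s => ¬ (AdmP q s → 0 < singP q s ∧ Tendsto (singPP q s) atTop (nhds (singP q s)) ∧
                |singP q s - singPP q s (w0 (Y ^ 2))| ≤ ε / 2 * singPP q s (w0 (Y ^ 2)))) := by
            intro s hs
            rw [mem_filter] at hs ⊢
            rw [hE] at hs
            exact ⟨hs.1, fun h => hs.2 fun had => ⟨(h had).1, (h had).2.1⟩⟩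
          exact_mod_cast card_le_card this
      _ = ε / 2 * (AdP (PW z) q).card := by rw [sum_const, nsmul_eq_mul]; ring)
  have e : (ATP H q).filter (fun s => ¬ (0 < singP q s ∧ Tendsto (singPP q s) atTop (nhds (singP q s)))) =
      (ATP H q).filter (fun s => E s) := by
    apply filter_congr
    intro s hs
    unfold ATP at hs
    rw [mem_filter] at hs
    have had := hs.2
    rw [hE]
    constructor
    · intro h h2
      exact h (h2 had)
    · intro h h2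
      exact h fun _ => h2
  rw [e]
  refine ht.trans (le_of_eq ?_)
  ring

open Classical in
/-- the formula with convergence of the series, for quadratic systems -/
def HLCP {K : ℕ} (Y : ℕ) (H : Fin K → ℕ) (q : Fin K → Polynomial ℤ) (ε : ℝ) : Prop :=
  (((ATP H q).filter fun s => ¬ (0 < singP q s ∧ Tendsto (singPP q s) atTop (nhds (singP q s)) ∧
    |cntP Y q s * (Real.log Y * ∏ i, Real.log (H i)) - singP q s * Y| ≤ ε * (singP q s * Y))).card : ℝ) ≤ ε * (ATP H q).card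

/-- the result for systems of quadratic polynomials with scale `Y²`, with convergence -/
def PQCP (Y Q : ℕ) (ε : ℝ) : Prop := ∀ (K : ℕ) (H : Fin K → ℕ) (q : Fin K → Polynomial ℤ), 6 * (K + 1) ≤ Q → Sys 2 Q Y (Y ^ 2) H q → Sq q →
  HLCP Y H q ε

lemma hlc_ofP {K : ℕ} {Y : ℕ} {H : Fin K → ℕ} {q : Fin K → Polynomial ℤ} {ε : ℝ} (hε : 0 < ε) (h1 : HLP Y H q (singP q) (ε / 2)) (h2 : by
    classical exact (((ATP H q).filter fun s => ¬ (0 < singP q s ∧ Tendsto (singPP q s) atTop (nhds (singP q s)))).card : ℝ) ≤ ε / 2 * (ATP H q).card) :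
    HLCP Y H q ε := by
  classical
  unfold HLP at h1
  unfold HLCP
  have hsub : ((ATP H q).filter fun s => ¬ (0 < singP q s ∧ Tendsto (singPP q s) atTop (nhds (singP q s)) ∧
    |cntP Y q s * (Real.log Y * ∏ i, Real.log (H i)) - singP q s * Y| ≤ ε * (singP q s * Y))) ⊆
      ((ATP H q).filter fun s => ¬ (|cntP Y q s * (Real.log Y * ∏ i, Real.log (H i)) - singP q s * Y| ≤ ε / 2 * (singP q s * Y))) ∪
      ((ATP H q).filter fun s => ¬ (0 < singP q s ∧ Tendsto (singPP q s) atTop (nhds (singP q s)))) := by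
    intro s hs
    rw [mem_filter] at hs
    rw [mem_union, mem_filter, mem_filter]
    by_contra hcon
    rw [not_or] at hcon
    obtain ⟨c1, c2⟩ := hcon
    have c1 : |cntP Y q s * (Real.log Y * ∏ i, Real.log (H i)) - singP q s * Y| ≤ ε / 2 * (singP q s * Y) := by
      by_contra h
      exact c1 ⟨hs.1, h⟩
    have c2 : 0 < singP q s ∧ Tendsto (singPP q s) atTop (nhds (singP q s)) := by
      by_contra h
      exact c2 ⟨hs.1, h⟩
    apply hs.2
    refine ⟨c2.1, c2.2, c1.trans ?_⟩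
    have : 0 ≤ singP q s * Y := mul_nonneg c2.1.le (Nat.cast_nonneg _)
    nlinarith
  have h3 := (card_le_card hsub).trans (card_union_le _ _)
  have h4 : ((((ATP H q).filter fun s => ¬ (0 < singP q s ∧ Tendsto (singPP q s) atTop (nhds (singP q s)) ∧
    |cntP Y q s * (Real.log Y * ∏ i, Real.log (H i)) - singP q s * Y| ≤ ε * (singP q s * Y)))).card : ℝ) ≤
      ((((ATP H q).filter fun s => ¬ (|cntP Y q s * (Real.log Y * ∏ i, Real.log (H i)) - singP q s * Y| ≤ ε / 2 * (singP q s * Y)))).card : ℝ) +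
      ((((ATP H q).filter fun s => ¬ (0 < singP q s ∧ Tendsto (singPP q s) atTop (nhds (singP q s))))).card : ℝ) := by exact_mod_cast h3
  have h5 : ε / 2 * ((ATP H q).card : ℝ) + ε / 2 * ((ATP H q).card : ℝ) = ε * ((ATP H q).card : ℝ) := by ring
  linarith

theorem sufP (anq : LQ.S_ANQ) (h2u : LQ.S_H2U) (any : ∀ A, ANY A) (prq : LQ.S_PRQ) (tau : LQ.S_TAU) (tail : S_TAILP') (far : S_FARP') (mbs : S_MBP) (tr : S_TRANSP) (wcb : S_WCBP)
    {a₀ κ : ℕ} (hκ : 64 ≤ κ) (vb : VBP a₀ κ) : SUFP PQCP := by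
  obtain ⟨B₁, C₁, hB₁, hC₁, hin⟩ := inputs anq h2u (2 * (a₀ + 11)) (4 * a₀ + 40) (by omega)
  obtain ⟨B₂, C₂, hB₂, hC₂, hany⟩ := any (2 * (a₀ + 11))
  have hκr : (64 : ℝ) ≤ κ := by exact_mod_cast hκ
  refine ⟨B₁ + B₂, 2 * C₁ + C₂ + 2 * κ, by omega, by linarith, fun ε hε => ?_⟩
  obtain ⟨M₁, hM₁, hexq⟩ := exq_quad prq tau a₀
  obtain ⟨M₂, hM₂, hnear⟩ := near_quadP tail far (min (ε / 2) 1 / 16) (ε / 2 / 8) (by positivity) (by positivity)
  obtain ⟨M₃, hM₃, hh⟩ := hls_boundP hκ vb mbs tr wcb Pool.Agent.Q111.SZ.t_PWB (ε / 2) (by positivity)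
  obtain ⟨M₄, hM₄, hcv⟩ := conv_quadP far mbs tr (ε / 2) (by positivity)
  refine ⟨M₁ + M₂ + M₃ + M₄ + 2 * C₁ + C₂ + 2 * κ, by linarith, ?_⟩
  intro z Y ω T hl hz hzL hω hω4 hωL hT hTz hTL hZF Q hQ K H q hKQ hSys hSq
  have hlY0 : 0 < Real.log (Real.log Y) := by linarith
  obtain ⟨e1, e2, e3⟩ := loglog_sq (Y := Y) (by linarith)
  set l := Real.log (Real.log Y) with hldef
  set lX := Real.log (Real.log ((Y ^ 2 : ℕ) : ℝ)) with hlX
  have hz0 : (0 : ℝ) ≤ z := by positivity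
  have hzl0 : 0 ≤ (z : ℝ) * l := by positivity
  have hlog0 : 0 ≤ Real.log Y := Real.log_natCast_nonneg Y
  have hC₁l : 0 ≤ C₁ * l := by positivity
  have hC₂l : 0 ≤ C₂ * l := by positivity
  have hκl : 0 ≤ (κ : ℝ) * l := by positivity
  have hS : Sys 2 z Y (Y ^ 2) H q := hSys.mono (by omega)
  have hdeg : ∀ i, (q i).natDegree = 2 := fun i => sq_deg hSq i (hS.deg i).1
  have hY1 : 1 ≤ Y := by
    rcases Nat.eq_zero_or_pos Y with h | h
    · rw [hldef, h] at hlY0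
      simp at hlY0
    · exact h
  have hYX : Y ≤ Y ^ 2 := Nat.le_self_pow (by norm_num) Y
  have hC₁zl : 0 ≤ C₁ * (z * l) := by positivity
  have hC₂zl : 0 ≤ C₂ * (z * l) := by positivity
  have hκzl : 0 ≤ (κ : ℝ) * (z * l) := by positivity
  have hz' : 2 * (C₁ * l) + C₂ * l + 2 * (κ * l) ≤ z := by
    refine le_trans (le_of_eq ?_) hz
    ring
  have hzL' : 2 * (C₁ * (z * l)) + C₂ * (z * l) + 2 * (κ * (z * l)) ≤ Real.log Y := by
    refine le_trans (le_of_eq ?_) hzL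
    ring
  have hωL' : 2 * (C₁ * l) + C₂ * l + 2 * (κ * l) ≤ ω * Real.log Y := by
    refine le_trans (le_of_eq ?_) hωL
    ring
  have hC₁0 : (0 : ℝ) ≤ C₁ := by linarith
  have c1 : C₁ * lX ≤ z := by
    have : C₁ * lX ≤ C₁ * (2 * l) := mul_le_mul_of_nonneg_left e3 hC₁0
    linarith
  have c2 : C₁ * z * lX ≤ Real.log ((Y ^ 2 : ℕ) : ℝ) := by
    have : C₁ * z * lX ≤ C₁ * z * (2 * l) := mul_le_mul_of_nonneg_left e3 (mul_nonneg hC₁0 hz0)
    rw [e1]
    linarith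
  have c3 : C₁ * lX ≤ ω * Real.log ((Y ^ 2 : ℕ) : ℝ) := by
    have : C₁ * lX ≤ C₁ * (2 * l) := mul_le_mul_of_nonneg_left e3 hC₁0
    have h2 : 0 ≤ ω * Real.log Y := by positivity
    rw [e1]
    linarith
  have c4 : 7 * √(Real.log ((Y ^ 2 : ℕ) : ℝ)) ≤ Real.log T := by
    refine le_trans ?_ hTL
    rw [e1]
    have h1 : √(2 * Real.log Y) ≤ 10 / 7 * √(Real.log Y) := by
      apply Real.sqrt_le_iff.2
      refine ⟨by positivity, ?_⟩
      rw [mul_pow, Real.sq_sqrt hlog0]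
      linarith
    linarith
  have c5 : 64 * lX ≤ z := by
    have hlX0 : 0 ≤ lX := hlY0.le.trans e2
    have : (64 : ℝ) * lX ≤ C₁ * lX := mul_le_mul_of_nonneg_right hC₁ hlX0
    linarith
  have hκ0 : (0 : ℝ) ≤ κ := by linarith
  have c6 : (κ : ℝ) * z * lX ≤ Real.log Y := by
    have : (κ : ℝ) * z * lX ≤ κ * z * (2 * l) := mul_le_mul_of_nonneg_left e3 (mul_nonneg hκ0 hz0)
    linarith
  have c7 : 64 * z * lX ≤ Real.log Y := by
    have hlX0 : 0 ≤ lX := hlY0.le.trans e2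
    have h1 : (64 : ℝ) * z * lX ≤ κ * z * lX := mul_le_mul_of_nonneg_right (mul_le_mul_of_nonneg_right hκr hz0) hlX0
    linarith
  have hTz1 : 120 * (B₁ : ℝ) * z ≤ Real.log T := by
    refine le_trans ?_ hTz
    push_cast
    have : 0 ≤ 120 * (B₂ : ℝ) * z := by positivity
    linarith
  have hTz2 : 120 * (B₂ : ℝ) * z ≤ Real.log T := by
    refine le_trans ?_ hTz
    push_cast
    have : 0 ≤ 120 * (B₁ : ℝ) * z := by positivity
    linarith
  have hZF1 : ZF (PW z ^ B₁) ω T := zf_monoP (Nat.pow_le_pow_right (PW_pos z) (by omega)) hZF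
  have hZF2 : ZF (PW z ^ B₂) ω T := zf_monoP (Nat.pow_le_pow_right (PW_pos z) (by omega)) hZF
  have hIN : ∀ i, INQ (2 * (a₀ + 11)) (4 * a₀ + 40) z (H i) := fun i =>
    hin z (Y ^ 2) ω T (by linarith) c1 c2 hω hω4 c3 hT hTz1 c4 hZF1 (H i) (hS.scale i).1 (hS.scale i).2
  obtain ⟨hEQ, hTH⟩ := hany z Y ω T (by linarith) (by linarith) (by linarith) hω hω4 (by linarith) hT hTz2 hTL hZF2
  choose h1 D hD hDc h2 using hIN
  have hKz : K ≤ z := by omega
  have hex := hexq z Y K H q D (by linarith) c5 c7 hKz hS hdeg (fun i => ⟨hD i, hDc i⟩)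
  have hn := hnear z Y K H q (by linarith) c5 c7 (by omega) hS hdeg
  exact hlc_ofP hε (hh z Y K H q D (by linarith) c5 c6 (by omega) hS hSq (fun i => ⟨h1 i, h2 i⟩) hEQ hTH hex (singP q) hn)
    (hcv z Y K H q (by linarith) c5 c7 (by omega) hS hdeg)

end Pool.Agent.Q145.PQ
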