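import Pool.Agent.Q145.PQ.FinP

/-!
# Project PQ: the singular series of most systems
-/

set_option autoImplicit false

namespace Pool.Agent.Q145.PQ

open Finset Filter
open Pool.Agent.Q145.SZ
open Pool.Agent.Q145.LS (uni th)
open Pool.Agent.Q145.LQ (vq ev Sys SbQ JP CC CRTQ GQ w0 elemQ scaleQ H1Q H2D exq cast_vq B2_triv w0_pow_le le_w0 near_comb)

open Classical in
/-- conclusion of `S_TAILP` -/
def S_TAILP' : Prop := ∀ ε : ℝ, 0 < ε → ∃ (C : ℝ) (X₀ z₀ : ℕ), 0 < C ∧ ∀ (d z w Y X K : ℕ) (H : Fin K → ℕ) (q : Fin K → Polynomial ℤ), X₀ ≤ X → z₀ ≤ z → 1 ≤ d → 8 * d * (K + 1) ≤ z → Sys d z Y X H q →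
  (z : ℝ) ≤ Real.log X → (PW z : ℝ) ^ 20 ≤ X → z ≤ w → (w : ℝ) ^ 20 ≤ X → ∀ b : Fin K → ZMod (PW z),
  (((SbQ H b).filter fun s => ¬ (|singPP q s w - singPP q s z| ≤ ε * singPP q s z)).card : ℝ) ≤ C / Real.log z * (SbQ H b).card

open Classical in
/-- conclusion of `S_FARP` -/
def S_FARP' : Prop := ∀ ε : ℝ, 0 < ε → ∃ X₀ : ℕ, ∀ (z Y K : ℕ) (H : Fin K → ℕ) (q : Fin K → Polynomial ℤ), X₀ ≤ Y → 32 * (K + 1) ≤ z → Sys 2 z Y (Y ^ 2) H q → (∀ i, (q i).natDegree = 2) →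
  (z : ℝ) ≤ Real.log Y → (PW z : ℝ) ^ 40 ≤ (Y : ℝ) ^ 2 → ∀ b : Fin K → ZMod (PW z),
  (((SbQ H b).filter fun s => ¬ (AdmP q s → 0 < singP q s ∧ Tendsto (singPP q s) atTop (nhds (singP q s)) ∧
    |singP q s - singPP q s (w0 (Y ^ 2))| ≤ ε * singPP q s (w0 (Y ^ 2)))).card : ℝ) ≤ ε * (SbQ H b).card

lemma singPP_nonneg {K : ℕ} (q : Fin K → Polynomial ℤ) (s : Fin K → ℕ) (w : ℕ) : 0 ≤ singPP q s w := by
  unfold singPP
  apply prod_nonneg
  intro p hp
  rw [mem_filter] at hp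
  have hp2 := hp.2.two_le
  have hp0 : (0 : ℝ) < p := by positivity
  unfold locP
  apply div_nonneg
  · rw [sub_nonneg, div_le_one hp0]
    have : nuP q s p ≤ p := by
      unfold nuP
      refine (card_filter_le _ _).trans ?_
      rw [card_range]
    exact_mod_cast this
  · apply pow_nonneg
    rw [sub_nonneg, div_le_one hp0]
    exact_mod_cast hp.2.one_lt.le

open Classical in
/-- the truncated series (general degree) -/
theorem near_truncP (tail : S_TAILP') : ∀ e δ : ℝ, 0 < e → 0 < δ → ∃ M : ℝ, 64 ≤ M ∧ ∀ (d z w Y X K : ℕ) (H : Fin K → ℕ) (q : Fin K → Polynomial ℤ), M ≤ Real.log (Real.log X) →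
    64 * Real.log (Real.log X) ≤ z → 64 * z * Real.log (Real.log X) ≤ Real.log Y → Y ≤ X → 1 ≤ d → 8 * d * (K + 1) ≤ z → Sys d z Y X H q → z ≤ w → (w : ℝ) ^ 20 ≤ X →
    NearP z H q (fun s => singPP q s w) e δ := by
  intro e δ he hδ
  obtain ⟨C, X₀, z₀, hC, ht⟩ := tail e he
  set M : ℝ := 64 + X₀ + z₀ + Real.exp (C / δ) with hM
  have p1 := Real.exp_pos (C / δ)
  have p2 : (0 : ℝ) ≤ X₀ := by positivity
  have p3 : (0 : ℝ) ≤ z₀ := by positivity
  have hM64 : 64 ≤ M := by linarith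
  refine ⟨M, hM64, ?_⟩
  intro d z w Y X K H q hX hz hzY hYX hd hK hS hzw hw b
  obtain ⟨hL0, hLM, hzM, hzL, hzl, hXe, hYe, hLe, hl64, hlL, hYXl⟩ := elemQ hM64 hX hYX hz hzY
  have hXL : Real.log X ≤ X := by
    have := Real.add_one_le_exp (Real.log X)
    rw [← hXe] at this; linarith
  have hX0 : X₀ ≤ X := by
    have : (X₀ : ℝ) ≤ X := by linarith
    exact_mod_cast this
  have hz0 : z₀ ≤ z := by
    have : (z₀ : ℝ) ≤ z := by linarith
    exact_mod_cast this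
  have hzpos : (0 : ℝ) < z := by linarith
  have hW20 : (PW z : ℝ) ^ 20 ≤ X := by
    calc (PW z : ℝ) ^ 20 ≤ (Real.exp (2 * z)) ^ 20 := by gcongr; exact PW_le Pool.Agent.Q111.SZ.t_PWB z
      _ = Real.exp (40 * z) := by rw [← Real.exp_nat_mul]; ring_nf
      _ ≤ Real.exp (Real.log X) := Real.exp_le_exp.2 (by linarith)
      _ = X := hXe.symm
  have h1 := ht d z w Y X K H q hX0 hz0 hd hK hS (by linarith) hW20 hzw hw b
  have hlz : C / δ ≤ Real.log z := by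
    rw [Real.le_log_iff_exp_le hzpos]
    linarith
  have hlz0 : 0 < Real.log z := lt_of_lt_of_le (by positivity) hlz
  have h2 : C / Real.log z ≤ δ := by
    rw [div_le_iff₀ hlz0]
    rw [div_le_iff₀ hδ] at hlz
    linarith
  have h3 : (0 : ℝ) ≤ (SbQ H b).card := Nat.cast_nonneg _
  have h4 : (((SbQ H b).filter fun s => ¬ (AdmP q s → |singPP q s w - singPP q s z| ≤ e * singPP q s z)).card : ℝ) ≤
      (((SbQ H b).filter fun s => ¬ (|singPP q s w - singPP q s z| ≤ e * singPP q s z)).card : ℝ) := by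
    have : ((SbQ H b).filter fun s => ¬ (AdmP q s → |singPP q s w - singPP q s z| ≤ e * singPP q s z)) ⊆
        ((SbQ H b).filter fun s => ¬ (|singPP q s w - singPP q s z| ≤ e * singPP q s z)) := by
      intro s hs
      rw [mem_filter] at hs ⊢
      refine ⟨hs.1, fun h => hs.2 fun _ => h⟩
    exact_mod_cast card_le_card this
  exact h4.trans (h1.trans (mul_le_mul_of_nonneg_right h2 h3))

open Classical in
/-- the full series of quadratic systems -/
theorem near_quadP (tail : S_TAILP') (far : S_FARP') : ∀ e δ : ℝ, 0 < e → 0 < δ → ∃ M : ℝ, 64 ≤ M ∧ ∀ (z Y K : ℕ) (H : Fin K → ℕ) (q : Fin K → Polynomial ℤ), M ≤ Real.log (Real.log ((Y ^ 2 : ℕ) : ℝ)) →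
    64 * Real.log (Real.log ((Y ^ 2 : ℕ) : ℝ)) ≤ z → 64 * z * Real.log (Real.log ((Y ^ 2 : ℕ) : ℝ)) ≤ Real.log Y → 32 * (K + 1) ≤ z → Sys 2 z Y (Y ^ 2) H q →
    (∀ i, (q i).natDegree = 2) → NearP z H q (singP q) e δ := by
  intro e δ he hδ
  set e' : ℝ := min (min e 1 / 4) (δ / 2) with he'
  have he'0 : 0 < e' := by positivity
  have he'a : 4 * e' ≤ e := by
    have h1 : e' ≤ min e 1 / 4 := min_le_left _ _
    have h2 : min e 1 ≤ e := min_le_left _ _
    linarith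
  have he'b : e' ≤ 1 := by
    have h1 : e' ≤ min e 1 / 4 := min_le_left _ _
    have h2 : min e 1 ≤ 1 := min_le_right _ _
    linarith
  have he'c : e' ≤ δ / 2 := min_le_right _ _
  obtain ⟨M₁, hM₁, ht⟩ := near_truncP tail e' (δ / 2) he'0 (by positivity)
  obtain ⟨Y₀, hf⟩ := far e' he'0
  set M : ℝ := M₁ + Y₀ with hM
  have p2 : (0 : ℝ) ≤ Y₀ := by positivity
  have hM64 : 64 ≤ M := by linarith
  refine ⟨M, hM64, ?_⟩
  intro z Y K H q hX hz hzY hK hS hdeg b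
  have hY1 : 1 ≤ Y := by
    rcases Nat.eq_zero_or_pos Y with h | h
    · rw [h] at hX
      simp at hX
      linarith
    · exact h
  have hYX : Y ≤ Y ^ 2 := by nlinarith
  obtain ⟨hL0, hLM, hzM, hzL, hzl, hXe, hYe, hLe, hl64, hlL, hYXl⟩ := elemQ hM64 hX hYX hz hzY
  have hz0 : (0 : ℝ) < z := by linarith
  have hzl' : 64 * (z : ℝ) ≤ z * Real.log (Real.log ((Y ^ 2 : ℕ) : ℝ)) := by nlinarith
  have hzLY : 4096 * (z : ℝ) ≤ Real.log Y := by linarith
  have hY0 : (0 : ℝ) < Y := by exact_mod_cast hY1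
  have hLYY : Real.log Y ≤ Y := by
    have := Real.add_one_le_exp (Real.log Y)
    rw [← hYe] at this; linarith
  have hY₀ : Y₀ ≤ Y := by
    have : (Y₀ : ℝ) ≤ Y := by linarith
    exact_mod_cast this
  have hW40 : (PW z : ℝ) ^ 40 ≤ (Y : ℝ) ^ 2 := by
    calc (PW z : ℝ) ^ 40 ≤ (Real.exp (2 * z)) ^ 40 := by gcongr; exact PW_le Pool.Agent.Q111.SZ.t_PWB z
      _ = Real.exp (80 * z) := by rw [← Real.exp_nat_mul]; ring_nf
      _ ≤ Real.exp (2 * Real.log Y) := Real.exp_le_exp.2 (by linarith)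
      _ = (Y : ℝ) ^ 2 := by rw [show (2 : ℝ) = ((2 : ℕ) : ℝ) by norm_num, Real.exp_nat_mul, ← hYe]
  have hzw : z ≤ w0 (Y ^ 2) := by
    apply le_w0 (by nlinarith)
    have h1 : ((2 ^ 40 * z ^ 40 : ℕ) : ℝ) ≤ ((Y ^ 2 : ℕ) : ℝ) := by
      rw [Nat.cast_mul, Nat.cast_pow, Nat.cast_pow, Nat.cast_pow, Nat.cast_ofNat]
      have h2 : (2 : ℝ) ≤ Real.exp z := by
        have := Real.add_one_le_exp (z : ℝ)
        linarith
      have h3 : (z : ℝ) ≤ Real.exp z := by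
        have := Real.add_one_le_exp (z : ℝ)
        linarith
      calc (2 : ℝ) ^ 40 * (z : ℝ) ^ 40 ≤ (Real.exp z) ^ 40 * (Real.exp z) ^ 40 := by gcongr
        _ = Real.exp (80 * z) := by rw [← Real.exp_nat_mul, ← Real.exp_add]; ring_nf
        _ ≤ Real.exp (2 * Real.log Y) := Real.exp_le_exp.2 (by linarith)
        _ = (Y : ℝ) ^ 2 := by rw [show (2 : ℝ) = ((2 : ℕ) : ℝ) by norm_num, Real.exp_nat_mul, ← hYe]
    exact_mod_cast h1
  have h1 := ht 2 z (w0 (Y ^ 2)) Y (Y ^ 2) K H q (by linarith) hz hzY hYX (by norm_num) (by omega) hS hzw (w0_pow_le (by nlinarith)) b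
  have h2 := hf z Y K H q hY₀ hK hS hdeg (by linarith) hW40 b
  have h3 : (0 : ℝ) ≤ (SbQ H b).card := Nat.cast_nonneg _
  have hsub : ((SbQ H b).filter fun s => ¬ (AdmP q s → |singP q s - singPP q s z| ≤ e * singPP q s z)) ⊆
      ((SbQ H b).filter fun s => ¬ (AdmP q s → |singPP q s (w0 (Y ^ 2)) - singPP q s z| ≤ e' * singPP q s z)) ∪
      ((SbQ H b).filter fun s => ¬ (AdmP q s → 0 < singP q s ∧ Tendsto (singPP q s) atTop (nhds (singP q s)) ∧
        |singP q s - singPP q s (w0 (Y ^ 2))| ≤ e' * singPP q s (w0 (Y ^ 2)))) := by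
    intro s hs
    rw [mem_filter] at hs
    obtain ⟨hs1, hs2⟩ := hs
    rw [mem_union, mem_filter, mem_filter]
    by_contra hcon
    rw [not_or] at hcon
    obtain ⟨c1, c2⟩ := hcon
    have c1 : AdmP q s → |singPP q s (w0 (Y ^ 2)) - singPP q s z| ≤ e' * singPP q s z := by
      by_contra h
      exact c1 ⟨hs1, h⟩
    have c2 : AdmP q s → 0 < singP q s ∧ Tendsto (singPP q s) atTop (nhds (singP q s)) ∧
        |singP q s - singPP q s (w0 (Y ^ 2))| ≤ e' * singPP q s (w0 (Y ^ 2)) := by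
      by_contra h
      exact c2 ⟨hs1, h⟩
    apply hs2
    intro had
    exact near_comb (singPP_nonneg q s z) he'0.le he'b he'a (c1 had) (c2 had).2.2
  have h4 := (card_le_card hsub).trans (card_union_le _ _)
  have h5 : ((((SbQ H b).filter fun s => ¬ (AdmP q s → |singP q s - singPP q s z| ≤ e * singPP q s z))).card : ℝ) ≤
      ((((SbQ H b).filter fun s => ¬ (AdmP q s → |singPP q s (w0 (Y ^ 2)) - singPP q s z| ≤ e' * singPP q s z))).card : ℝ) +
      ((((SbQ H b).filter fun s => ¬ (AdmP q s → 0 < singP q s ∧ Tendsto (singPP q s) atTop (nhds (singP q s)) ∧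
        |singP q s - singPP q s (w0 (Y ^ 2))| ≤ e' * singPP q s (w0 (Y ^ 2))))).card : ℝ) := by exact_mod_cast h4
  have h6 : e' * ((SbQ H b).card : ℝ) ≤ δ / 2 * ((SbQ H b).card : ℝ) := mul_le_mul_of_nonneg_right he'c h3
  have h7 : δ / 2 * ((SbQ H b).card : ℝ) + δ / 2 * ((SbQ H b).card : ℝ) = δ * ((SbQ H b).card : ℝ) := by ring
  linarith

end Pool.Agent.Q145.PQ
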