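import Pool.Agent.Q145.PQ.Stm
import Pool.Agent.Q145.LQ.Inp
import Pool.Agent.Q145.LS.Var

/-!
# Project PQ: the numerical part of the variance
-/

set_option autoImplicit false

namespace Pool.Agent.Q145.PQ

open Finset Filter
open Pool.Agent.Q145.SZ
open Pool.Agent.Q145.LS (uni th)
open Pool.Agent.Q145.LQ (vq ev Sys SbQ JP CC CRTQ GQ w0 elemQ)

lemma num_partP {z Y X K a₀ Nc : ℕ} {M C₀ C η ε₀ : ℝ} (hη : 0 < η) (hη1 : η ≤ 1) (hM : 64 ≤ M) (hMη : 256 / η ≤ M)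
    (hC₀ : 0 ≤ C₀) (ha₀ : C₀ ≤ a₀) (hNc : Nc ≤ a₀) (hMa : (a₀ : ℝ) + 1 ≤ M)
    (pb : S_PWB) (hz1 : Real.exp ((z : ℝ) / 2) ≤ PW z) (hcc1 : 1 ≤ CC C (PW z)) (hcc : CC C (PW z) ≤ Real.log z ^ Nc)
    (hX : M ≤ Real.log (Real.log X)) (hYX : Y ≤ X) (h1 : 64 * Real.log (Real.log X) ≤ z) (h2 : 64 * z * Real.log (Real.log X) ≤ Real.log Y)
    (hK : 32 * (K + 1) ≤ z) {H₀ : ℝ} (hH0 : 0 ≤ H₀) (hH : H₀ ≤ η / 16) (he0 : 0 ≤ ε₀) (he : ε₀ ≤ η / 64) :
    ((1 + 1 / Real.log X ^ (2 * (a₀ + 11)) * √(CC C (PW z))) ^ K * (1 + H₀) + (PW z : ℝ) ^ 2 * C₀ ^ K * (2 / (PW z : ℝ) ^ (a₀ + 8)) * (2 * Real.log Y) ^ 2 +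
      (PW z : ℝ) ^ 2 * (16 * Real.log X ^ 2) ^ K * (2 * Real.log Y) ^ 2 / Y) -
      2 * (1 - ε₀ - (1 + ε₀) * (K * ((3 * (1 / Real.log X ^ (a₀ + 11) + PW z / X)) * √(CC C (PW z))))) + 1 ≤ η := by
  obtain ⟨hL0, hLM, hzM, hzL, hzl, hXe, hYe, hLe, hl64, hlL, hYXl⟩ := elemQ hM hX hYX h1 h2
  set L := Real.log X with hL
  set l := Real.log L with hl
  set LY := Real.log Y with hLY
  set W : ℝ := (PW z : ℝ) with hW
  have hM0 : 0 < M := by linarith
  have hz0 : (0 : ℝ) < z := by linarith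
  have hl0 : 0 < l := by linarith
  have hW1 : 1 ≤ W := one_le_PW z
  have hWe : W ≤ Real.exp (2 * z) := PW_le pb z
  have hL1 : 1 ≤ L := by linarith
  have hKz' : (32 : ℝ) * (K + 1) ≤ z := by exact_mod_cast hK
  have hK0 : (0 : ℝ) ≤ K := by positivity
  have hKz : (32 : ℝ) * K ≤ z := by linarith
  have hKL : (K : ℝ) ≤ L := by linarith
  have hX0 : (0 : ℝ) < X := by rw [hXe]; exact Real.exp_pos _
  have hY0 : (0 : ℝ) < Y := by rw [hYe]; exact Real.exp_pos _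
  have hXexp : (1 : ℝ) / X = Real.exp (-L) := by
    rw [Real.exp_neg, ← hXe, one_div]
  have hYexp : (1 : ℝ) / Y = Real.exp (-LY) := by
    rw [Real.exp_neg, ← hYe, one_div]
  have hMinv : 1 / M ≤ η / 256 := by
    rw [div_le_iff₀ hM0]; rw [div_le_iff₀ hη] at hMη; linarith
  have hzl' : (z : ℝ) ≤ z * l := by nlinarith
  have hLYM : M ≤ LY := by
    have : 64 * (z : ℝ) ≤ 64 * (z * l) := by linarith
    nlinarith
  have hLY0 : 0 < LY := by linarith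
  have hexp2 : Real.exp (-(LY / 2)) ≤ 2 / M := by
    have h := exp_neg_le_inv (x := LY / 2) (by linarith)
    refine h.trans ?_
    rw [one_div_div]
    gcongr
  have hlogz0 : 0 ≤ Real.log z := Real.log_nonneg (by linarith)
  have hlogz : Real.log z ≤ L := by
    have : Real.log z ≤ z := (Real.log_le_sub_one_of_pos hz0).trans (by linarith)
    linarith
  have hs : √(CC C (PW z)) ≤ L ^ a₀ := by
    have e1 : √(CC C (PW z)) ≤ CC C (PW z) := by
      rw [Real.sqrt_le_left (by linarith)]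
      nlinarith
    calc √(CC C (PW z)) ≤ CC C (PW z) := e1
      _ ≤ Real.log z ^ Nc := hcc
      _ ≤ L ^ Nc := by gcongr
      _ ≤ L ^ a₀ := pow_le_pow_right₀ hL1 hNc
  have hs0 : 0 ≤ √(CC C (PW z)) := Real.sqrt_nonneg _
  -- first term
  have hx : (K : ℝ) * (1 / L ^ (2 * (a₀ + 11)) * √(CC C (PW z))) ≤ 1 / M := by
    have e : L ^ (2 * (a₀ + 11)) = L ^ (a₀ + 20) * L * L * L ^ a₀ := by ring
    have e2 : (1 : ℝ) ≤ L ^ (a₀ + 20) := one_le_pow₀ hL1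
    calc (K : ℝ) * (1 / L ^ (2 * (a₀ + 11)) * √(CC C (PW z)))
        ≤ L * (1 / L ^ (2 * (a₀ + 11)) * L ^ a₀) := by gcongr
      _ = 1 / (L ^ (a₀ + 20) * L) := by rw [e]; field_simp
      _ ≤ 1 / (1 * L) := by gcongr
      _ ≤ 1 / M := by rw [one_mul]; gcongr
  have hM1 : 1 / M ≤ 1 := by rw [div_le_one hM0]; linarith
  have t1 : (1 + 1 / L ^ (2 * (a₀ + 11)) * √(CC C (PW z))) ^ K ≤ 1 + η / 16 := by
    refine (one_add_pow_le (by positivity) (hx.trans hM1)).trans ?_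
    linarith
  have t1' : (1 + 1 / L ^ (2 * (a₀ + 11)) * √(CC C (PW z))) ^ K * (1 + H₀) ≤ 1 + 3 * η / 16 := by
    calc _ ≤ (1 + η / 16) * (1 + η / 16) := by gcongr
      _ ≤ _ := by nlinarith
  -- second term
  have hC₀K : C₀ ^ K ≤ W ^ a₀ := by
    have e1 : C₀ ≤ Real.exp a₀ := ha₀.trans (by linarith [Real.add_one_le_exp (a₀ : ℝ)])
    calc C₀ ^ K ≤ (Real.exp a₀) ^ K := by gcongr
      _ = Real.exp (a₀ * K) := by rw [← Real.exp_nat_mul]; ring_nf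
      _ ≤ Real.exp (a₀ * (z / 2)) := by
        apply Real.exp_le_exp.2
        apply mul_le_mul_of_nonneg_left _ (by positivity)
        linarith
      _ = Real.exp (z / 2) ^ a₀ := by rw [← Real.exp_nat_mul]
      _ ≤ W ^ a₀ := by gcongr
  have hWM : 32 * M ≤ W := by
    have : (z : ℝ) / 2 + 1 ≤ Real.exp (z / 2) := Real.add_one_le_exp _
    linarith
  have hLW : LY ≤ W := by
    calc LY ≤ L := hYXl
      _ = Real.exp l := hLe
      _ ≤ Real.exp (z / 2) := Real.exp_le_exp.2 (by linarith)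
      _ ≤ W := hz1
  have t2 : W ^ 2 * C₀ ^ K * (2 / W ^ (a₀ + 8)) * (2 * LY) ^ 2 ≤ η / 16 := by
    calc W ^ 2 * C₀ ^ K * (2 / W ^ (a₀ + 8)) * (2 * LY) ^ 2 ≤ W ^ 2 * W ^ a₀ * (2 / W ^ (a₀ + 8)) * (2 * W) ^ 2 := by gcongr
      _ = 8 / W ^ 4 := by
        have : W ^ (a₀ + 8) = W ^ 2 * W ^ a₀ * W ^ 2 * W ^ 4 := by ring
        rw [this]; field_simp; norm_num
      _ ≤ 8 / W := by
        apply div_le_div_of_nonneg_left (by norm_num) (by linarith)
        calc W = W ^ 1 := (pow_one W).symm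
          _ ≤ W ^ 4 := pow_le_pow_right₀ hW1 (by norm_num)
      _ ≤ 8 / (32 * M) := by gcongr
      _ = (1 / 4) * (1 / M) := by field_simp; norm_num
      _ ≤ _ := by nlinarith
  -- third term
  have e1 : 16 * L ^ 2 ≤ Real.exp (3 + 2 * l) := by
    rw [Real.exp_add]
    have e4 : (16 : ℝ) ≤ Real.exp 3 := by
      have h9 := Real.exp_one_gt_d9
      have e : Real.exp 3 = Real.exp 1 * Real.exp 1 * Real.exp 1 := by rw [← Real.exp_add, ← Real.exp_add]; norm_num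
      rw [e]; nlinarith [mul_pos (Real.exp_pos 1) (Real.exp_pos 1)]
    have e5 : Real.exp (2 * l) = L ^ 2 := by
      have : Real.exp (2 * l) = Real.exp l ^ 2 := by rw [← Real.exp_nat_mul]; norm_num
      rw [this, ← hLe]
    rw [e5]; gcongr
  have t3 : W ^ 2 * (16 * L ^ 2) ^ K * (2 * LY) ^ 2 / Y ≤ η / 16 := by
    have e2 : (16 * L ^ 2) ^ K * (2 * LY) ^ 2 ≤ Real.exp (LY / 4) := by
      calc (16 * L ^ 2) ^ K * (2 * LY) ^ 2 ≤ (16 * L ^ 2) ^ K * (2 * L) ^ 2 := by gcongr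
        _ ≤ (16 * L ^ 2) ^ K * (16 * L ^ 2) := by
            gcongr; nlinarith [sq_nonneg L]
        _ = (16 * L ^ 2) ^ (K + 1) := (pow_succ _ _).symm
        _ ≤ (Real.exp (3 + 2 * l)) ^ (K + 1) := by gcongr
        _ = Real.exp ((K + 1) * (3 + 2 * l)) := by rw [← Real.exp_nat_mul]; push_cast; ring_nf
        _ ≤ Real.exp (LY / 4) := by
          apply Real.exp_le_exp.2
          have : ((K : ℝ) + 1) * (3 + 2 * l) ≤ (K + 1) * (5 * l) := by gcongr; linarith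
          have h3 : 32 * (((K : ℝ) + 1) * l) ≤ z * l := by nlinarith
          nlinarith
    have e3 : W ^ 2 ≤ Real.exp (LY / 4) := by
      calc W ^ 2 ≤ (Real.exp (2 * z)) ^ 2 := by gcongr
        _ = Real.exp (4 * z) := by rw [← Real.exp_nat_mul]; ring_nf
        _ ≤ _ := Real.exp_le_exp.2 (by linarith)
    calc W ^ 2 * (16 * L ^ 2) ^ K * (2 * LY) ^ 2 / Y = W ^ 2 * ((16 * L ^ 2) ^ K * (2 * LY) ^ 2) * (1 / Y) := by ring
      _ ≤ Real.exp (LY / 4) * Real.exp (LY / 4) * Real.exp (-LY) := by rw [hYexp]; gcongr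
      _ = Real.exp (-(LY / 2)) := by rw [← Real.exp_add, ← Real.exp_add]; ring_nf
      _ ≤ 2 / M := hexp2
      _ = 2 * (1 / M) := by ring
      _ ≤ _ := by linarith
  -- the first moment
  have g2 : (K : ℝ) * (1 / L ^ (a₀ + 11) * √(CC C (PW z))) ≤ 1 / M := by
    have e : L ^ (a₀ + 11) = L ^ a₀ * L * L * L ^ 9 := by ring
    have e2 : (1 : ℝ) ≤ L ^ 9 := one_le_pow₀ hL1
    calc (K : ℝ) * (1 / L ^ (a₀ + 11) * √(CC C (PW z))) ≤ L * (1 / L ^ (a₀ + 11) * L ^ a₀) := by gcongr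
      _ = 1 / (L ^ 9 * L) := by rw [e]; field_simp
      _ ≤ 1 / (1 * L) := by gcongr
      _ ≤ 1 / M := by rw [one_mul]; gcongr
  have g3 : (K : ℝ) * (W / X * √(CC C (PW z))) ≤ 2 / M := by
    calc (K : ℝ) * (W / X * √(CC C (PW z))) ≤ L * (W * (1 / X) * L ^ a₀) := by
          rw [div_eq_mul_one_div W (X : ℝ)]
          gcongr
      _ = W * L ^ (a₀ + 1) * (1 / X) := by ring
      _ ≤ Real.exp (2 * z) * Real.exp (z * l) * Real.exp (-L) := by
          rw [hXexp]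
          gcongr
          calc L ^ (a₀ + 1) = (Real.exp l) ^ (a₀ + 1) := by rw [← hLe]
            _ = Real.exp ((a₀ + 1) * l) := by rw [← Real.exp_nat_mul]; push_cast; ring_nf
            _ ≤ Real.exp (z * l) := by
              apply Real.exp_le_exp.2
              have : (a₀ : ℝ) + 1 ≤ z := by linarith
              gcongr
      _ = Real.exp (2 * z + z * l - L) := by rw [← Real.exp_add, ← Real.exp_add]; ring_nf
      _ ≤ Real.exp (-(LY / 2)) := Real.exp_le_exp.2 (by linarith)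
      _ ≤ _ := hexp2
  have g4 : (K : ℝ) * ((3 * (1 / L ^ (a₀ + 11) + W / X)) * √(CC C (PW z))) ≤ 9 / M := by
    calc (K : ℝ) * ((3 * (1 / L ^ (a₀ + 11) + W / X)) * √(CC C (PW z))) = 3 * (K * (1 / L ^ (a₀ + 11) * √(CC C (PW z))) + K * (W / X * √(CC C (PW z)))) := by ring
      _ ≤ 3 * (1 / M + 2 / M) := by linarith
      _ = _ := by ring
  have g5 : 0 ≤ (K : ℝ) * ((3 * (1 / L ^ (a₀ + 11) + W / X)) * √(CC C (PW z))) := by positivity
  set x := (K : ℝ) * ((3 * (1 / L ^ (a₀ + 11) + W / X)) * √(CC C (PW z))) with hxdef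
  have g8 : (1 + ε₀) * x ≤ 2 * x := by
    apply mul_le_mul_of_nonneg_right _ g5
    linarith
  have g10 : 9 / M = 9 * (1 / M) := by ring
  nlinarith

end Pool.Agent.Q145.PQ
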