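import Pool.Agent.Q145.PQ.NumP

/-!
# Project PQ: the variance
-/

set_option autoImplicit false

namespace Pool.Agent.Q145.PQ

open Finset Filter
open Pool.Agent.Q145.SZ
open Pool.Agent.Q145.LS (uni th)
open Pool.Agent.Q145.LQ (vq ev Sys SbQ JP CC CRTQ GQ w0 elemQ scaleQ H1Q H2D exq cast_vq B2_triv)

/-- conclusion of `S_HSSP` -/
def S_HSSP' : Prop := ∃ (C z₀ : ℕ), 1 ≤ C ∧ ∀ (z Y K : ℕ) (ε : ℝ), z₀ ≤ z → 8 * K ≤ z → Real.exp (C * z) * Real.log Y ^ (C * (K + 1)) ≤ Y → PW z ≤ Y → 0 ≤ ε → ε ≤ 1 →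
  (∑ c ∈ uni (PW z), (th Y c - (Y : ℝ) / Nat.totient (PW z)) ^ 2 ≤ ε ^ 2 * (Y : ℝ) ^ 2 / Nat.totient (PW z)) →
  ∀ Q : ZMod (PW z) → ZMod (PW z) → ℝ, (∀ c d, 0 ≤ Q c d) → (∀ (t : (ZMod (PW z))ˣ) (c d : ZMod (PW z)), Q (t * c) (t * d) = Q c d) →
  ∑ n ∈ Ioc Y (2 * Y), ∑ m ∈ (Ioc Y (2 * Y)).filter (fun m => m ≠ n), wt n * wt m * JP z (dst (n ^ 2) (m ^ 2)) ^ K * Q n m ≤
    ((Y : ℝ) / Nat.totient (PW z)) ^ 2 * (1 + (C / Real.log z + 3 * ε)) * ∑ c ∈ uni (PW z), ∑ d ∈ uni (PW z), Q c d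

/-- conclusion of `S_JP2` -/
def S_JP2' : Prop := ∃ (C z₀ : ℕ), 1 ≤ C ∧ ∀ (z Y K : ℕ), z₀ ≤ z → 16 * K ≤ z → (PW z : ℝ) ^ 2 * Real.log (4 * (Y : ℝ) ^ 2) ^ (C * (K + 1)) ≤ Y → ∀ c e : ZMod (PW z),
  ∑ n ∈ (Ioc Y (2 * Y)).filter (fun n : ℕ => (n : ZMod (PW z)) = c),
    ∑ m ∈ (Ioc Y (2 * Y)).filter (fun m : ℕ => (m : ZMod (PW z)) = e ∧ n ≠ m), JP z (dst (n ^ 2) (m ^ 2)) ^ (2 * K) ≤ ((Y : ℝ) / PW z) ^ 2 * 2

lemma split_sqP {z Y K : ℕ} (H : Fin K → ℕ) (q : Fin K → Polynomial ℤ) :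
    ∑ b ∈ AdP (PW z) q, (∑ s ∈ SbQ H b, (wcP Y q s / MbP Y q b - 1) ^ 2) / ((SbQ H b).card : ℝ) ≤
      ∑ b ∈ AdP (PW z) q, (∑ s ∈ SbQ H b, (wcP Y q s / MbP Y q b) ^ 2) / ((SbQ H b).card : ℝ)
        - 2 * ∑ b ∈ AdP (PW z) q, (∑ s ∈ SbQ H b, wcP Y q s / MbP Y q b) / ((SbQ H b).card : ℝ) + ((AdP (PW z) q).card : ℝ) := by
  rw [mul_sum, ← sum_sub_distrib, card_eq_sum_ones, Nat.cast_sum, ← sum_add_distrib]
  apply sum_le_sum
  intro b _
  have h : ∑ s ∈ SbQ H b, (wcP Y q s / MbP Y q b - 1) ^ 2 =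
      ∑ s ∈ SbQ H b, (wcP Y q s / MbP Y q b) ^ 2 - 2 * ∑ s ∈ SbQ H b, wcP Y q s / MbP Y q b + ((SbQ H b).card : ℝ) := by
    rw [mul_sum, ← sum_sub_distrib, card_eq_sum_ones, Nat.cast_sum, ← sum_add_distrib]
    refine sum_congr rfl fun s _ => ?_
    push_cast; ring
  rw [h, add_div, sub_div, mul_div_assoc]
  have : ((SbQ H b).card : ℝ) / (SbQ H b).card ≤ 1 := div_self_le_one _
  push_cast
  linarith

/-- sums over few pairs -/
lemma few_pairs (esq : LQ.S_ESQ) {z Y K : ℕ} (hJ : ∀ c e : ZMod (PW z), ∑ n ∈ (Ioc Y (2 * Y)).filter (fun n : ℕ => (n : ZMod (PW z)) = c),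
    ∑ m ∈ (Ioc Y (2 * Y)).filter (fun m : ℕ => (m : ZMod (PW z)) = e ∧ n ≠ m), JP z (dst (n ^ 2) (m ^ 2)) ^ (2 * K) ≤ ((Y : ℝ) / PW z) ^ 2 * 2)
    (hJ0 : ∀ h, 0 ≤ JP z h) (E : Finset (ℕ × ℕ)) (η : ℝ) (hη : 0 ≤ η) (hE : (E.card : ℝ) ≤ η ^ 2 * (Y : ℝ) ^ 2) : by
    classical exact ∑ x ∈ E.filter (fun x => x.1 ∈ Ioc Y (2 * Y) ∧ x.2 ∈ Ioc Y (2 * Y) ∧ x.1 ≠ x.2), JP z (dst (x.1 ^ 2) (x.2 ^ 2)) ^ K ≤ 2 * η * (Y : ℝ) ^ 2 := by
  classical
  have hok : ∀ n m : ℕ, LQ.okp (K := 0) (fun i => Fin.elim0 i) n m ↔ n ≠ m := by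
    intro n m
    unfold LQ.okp
    constructor
    · exact fun h => h.1
    · exact fun h => ⟨h, fun i => Fin.elim0 i⟩
  have h := esq (PW z) Y 0 (fun i => Fin.elim0 i) (fun n m => JP z (dst (n ^ 2) (m ^ 2)) ^ K) E η hη (fun n m => pow_nonneg (hJ0 _) _) (by
    intro c e
    refine le_trans (le_of_eq ?_) (hJ c e)
    refine sum_congr rfl fun n _ => ?_
    refine sum_congr ?_ fun m _ => by rw [← pow_mul, mul_comm K 2]
    refine filter_congr fun m _ => ?_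
    rw [hok]) hE
  refine le_trans (le_of_eq ?_) h
  refine sum_congr ?_ fun x _ => rfl
  refine filter_congr fun x _ => ?_
  rw [hok]

lemma aux_sq {a x y t : ℝ} (ha : 0 ≤ a) (hx : 0 ≤ x) (h7 : t ≤ a ^ 2) (h9 : y ≤ x ^ 2) : 8 * (t + y) ≤ (3 * (a + x)) ^ 2 := by
  nlinarith [mul_nonneg ha hx, sq_nonneg a, sq_nonneg x]

lemma aux_pow {LY M : ℝ} {a : ℕ} (hM : 1 ≤ M) (h : M ≤ LY) : 1 / LY ^ (a + 1) ≤ 1 / M := by
  have h1 : 1 ≤ LY := hM.trans h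
  have g0 : (1 : ℝ) ≤ LY ^ a := one_le_pow₀ h1
  rw [pow_succ]
  apply one_div_le_one_div_of_le (by linarith)
  nlinarith

lemma condH {z K Ch : ℕ} {LY L l Yr : ℝ} (hl : 64 ≤ l) (hLe : L = Real.exp l) (hYe : Yr = Real.exp LY) (hLYL : LY ≤ L) (hLY0 : 0 ≤ LY) (hK : 96 * ((K : ℝ) + 1) ≤ z)
    (h : (Ch : ℝ) * (z * l) ≤ LY) : Real.exp (Ch * z) * LY ^ (Ch * (K + 1)) ≤ Yr := by
  have hCh0 : (0 : ℝ) ≤ Ch := Nat.cast_nonneg _
  have hz0 : (0 : ℝ) ≤ z := Nat.cast_nonneg _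
  calc Real.exp (Ch * z) * LY ^ (Ch * (K + 1)) ≤ Real.exp (Ch * z) * L ^ (Ch * (K + 1)) := by gcongr
    _ = Real.exp (Ch * z) * Real.exp ((Ch * (K + 1)) * l) := by
      have f2 : L ^ (Ch * (K + 1)) = Real.exp ((Ch * (K + 1)) * l) := by
        rw [hLe, ← Real.exp_nat_mul]
        push_cast
        ring_nf
      rw [f2]
    _ = Real.exp (Ch * z + (Ch * (K + 1)) * l) := by rw [← Real.exp_add]
    _ ≤ Real.exp LY := by
      apply Real.exp_le_exp.2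
      have f3 : (Ch : ℝ) * ((K + 1) * l) ≤ Ch * (z * l / 96) := by
        apply mul_le_mul_of_nonneg_left _ hCh0
        nlinarith
      have f4 : (Ch : ℝ) * z ≤ Ch * (z * l / 64) := by
        apply mul_le_mul_of_nonneg_left _ hCh0
        nlinarith
      have f5 : (Ch : ℝ) * (z * l / 96) = (Ch * (z * l)) / 96 := by ring
      have f6 : (Ch : ℝ) * (z * l / 64) = (Ch * (z * l)) / 64 := by ring
      have f7 : 0 ≤ (Ch : ℝ) * (z * l) := by
        have : 0 ≤ l := by linarith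
        positivity
      have f8 : (Ch : ℝ) * (K + 1) * l = Ch * ((K + 1) * l) := by ring
      rw [f8]
      linarith
    _ = Yr := hYe.symm

lemma condJ {z K Cj Y : ℕ} {LY L l : ℝ} (hl : 64 ≤ l) (hLe : L = Real.exp l) (hY0 : (0 : ℝ) < Y) (hLYd : LY = Real.log Y) (hL2 : L = 2 * LY) (hL64 : 64 ≤ L) (hK : 96 * ((K : ℝ) + 1) ≤ z)
    (hW : (PW z : ℝ) ≤ Real.exp (2 * z)) (h : 64 * ((z : ℝ) * l) + (Cj : ℝ) * (z * l) ≤ LY) : (PW z : ℝ) ^ 2 * Real.log (4 * (Y : ℝ) ^ 2) ^ (Cj * (K + 1)) ≤ Y := by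
  have hCj0 : (0 : ℝ) ≤ Cj := Nat.cast_nonneg _
  have hz0 : (0 : ℝ) ≤ z := Nat.cast_nonneg _
  have hYe : (Y : ℝ) = Real.exp LY := by rw [hLYd, Real.exp_log hY0]
  have e0 : Real.log (4 * (Y : ℝ) ^ 2) = Real.log 4 + L := by
    rw [Real.log_mul (by norm_num) (by positivity), hL2, hLYd, Real.log_pow]; norm_num
  have e4 : Real.log 4 ≤ 3 := by
    have := Real.log_le_sub_one_of_pos (by norm_num : (0 : ℝ) < 4)
    linarith
  have e4' : 0 ≤ Real.log 4 := Real.log_nonneg (by norm_num)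
  have e1 : Real.log (4 * (Y : ℝ) ^ 2) ≤ L ^ 2 := by
    rw [e0]
    nlinarith
  have e2 : 0 ≤ Real.log (4 * (Y : ℝ) ^ 2) := by
    rw [e0]; linarith
  have hL0 : 0 ≤ L := by linarith
  calc (PW z : ℝ) ^ 2 * Real.log (4 * (Y : ℝ) ^ 2) ^ (Cj * (K + 1)) ≤ (Real.exp (2 * z)) ^ 2 * (L ^ 2) ^ (Cj * (K + 1)) := by gcongr
    _ = Real.exp (4 * z) * Real.exp ((2 * (Cj * (K + 1))) * l) := by
      have f1 : (Real.exp (2 * (z : ℝ))) ^ 2 = Real.exp (4 * z) := by rw [← Real.exp_nat_mul]; ring_nf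
      have f2 : (L ^ 2) ^ (Cj * (K + 1)) = Real.exp ((2 * (Cj * (K + 1))) * l) := by
        rw [← pow_mul, hLe, ← Real.exp_nat_mul]
        push_cast
        ring_nf
      rw [f1, f2]
    _ = Real.exp (4 * z + (2 * (Cj * (K + 1))) * l) := by rw [← Real.exp_add]
    _ ≤ Real.exp LY := by
      apply Real.exp_le_exp.2
      have f3 : (Cj : ℝ) * ((K + 1) * l) ≤ Cj * (z * l / 96) := by
        apply mul_le_mul_of_nonneg_left _ hCj0
        nlinarith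
      have f5 : (Cj : ℝ) * (z * l / 96) = (Cj * (z * l)) / 96 := by ring
      have f7 : 0 ≤ (Cj : ℝ) * (z * l) := by
        have : 0 ≤ l := by linarith
        positivity
      have f8 : 2 * ((Cj : ℝ) * (K + 1)) * l = 2 * (Cj * ((K + 1) * l)) := by ring
      have f9 : (z : ℝ) ≤ z * l := by nlinarith
      rw [f8]
      linarith
    _ = Y := hYe.symm

/-- the bound of the variance, for given constants -/
def VBP (a₀ κ : ℕ) : Prop := ∀ η : ℝ, 0 < η → ∃ M : ℝ, 64 ≤ M ∧ ∀ (z Y K : ℕ) (H : Fin K → ℕ) (q : Fin K → Polynomial ℤ) (D : Fin K → Finset ℕ), M ≤ Real.log (Real.log ((Y ^ 2 : ℕ) : ℝ)) →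
      64 * Real.log (Real.log ((Y ^ 2 : ℕ) : ℝ)) ≤ z → (κ : ℝ) * z * Real.log (Real.log ((Y ^ 2 : ℕ) : ℝ)) ≤ Real.log Y → 96 * (K + 1) ≤ z → Sys 2 z Y (Y ^ 2) H q → Sq q →
      (∀ i, H1Q (2 * (a₀ + 11)) z (H i) ∧ H2D (2 * (a₀ + 11)) z (H i) (D i)) → LS.EQc (2 * (a₀ + 11)) z Y → LS.THc (2 * (a₀ + 11)) Y →
      (((exq Y q D).card : ℝ) ≤ (Y : ℝ) ^ 2 / (PW z : ℝ) ^ (2 * (a₀ + 8))) →
      ∑ b ∈ AdP (PW z) q, (∑ s ∈ SbQ H b, (wcP Y q s / MbP Y q b - 1) ^ 2) / ((SbQ H b).card : ℝ) ≤ η * ((AdP (PW z) q).card : ℝ)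

open Classical in
theorem var_boundP {C : ℝ} (hC : 0 < C) (l1 : LAW1P 2 C) (l2 : LAW2P 2 C) (un : S_UNIP) (m1 : S_MOM1P) (m2 : S_MOM2P) (hss : S_HSSP') (jp2 : S_JP2') (spj : S_SPJ) (esq : LQ.S_ESQ)
    (sv : S_SIEVE) (ccb : LQ.S_CCB) (pb : S_PWB) (us : S_US) : ∃ a₀ κ : ℕ, 64 ≤ κ ∧ VBP a₀ κ := by
  obtain ⟨Cs, Xs, hCs, hsv⟩ := sv
  obtain ⟨Ch, zh, hCh, hhs⟩ := hss
  obtain ⟨Cj, zj, hCj, hhj⟩ := jp2
  obtain ⟨Nc, zc, hcc⟩ := ccb C hC
  obtain ⟨z₁, hz₁⟩ := pb.2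
  obtain ⟨a₁, ha₁⟩ := exists_nat_ge (2 * Cs)
  set a₀ : ℕ := max a₁ Nc with ha₀
  have ha₀1 : 2 * Cs ≤ (a₀ : ℝ) := ha₁.trans (by exact_mod_cast le_max_left _ _)
  have ha₀2 : Nc ≤ a₀ := le_max_right _ _
  refine ⟨a₀, 64 + Ch + Cj, by omega, ?_⟩
  intro η hη
  set η' := min η 1 with hη'
  have hη'0 : 0 < η' := by positivity
  have hη'1 : η' ≤ 1 := min_le_right _ _
  set M : ℝ := 64 + 384 / η' + Real.exp (32 * Ch / η') + zh + zj + zc + z₁ + Xs + a₀ + 1 with hM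
  have p1 : 0 < 384 / η' := by positivity
  have p4 := Real.exp_pos (32 * Ch / η')
  have p5 : (0 : ℝ) ≤ zh := by positivity
  have p5j : (0 : ℝ) ≤ zj := by positivity
  have p5' : (0 : ℝ) ≤ zc := by positivity
  have p6 : (0 : ℝ) ≤ z₁ := by positivity
  have p7 : (0 : ℝ) ≤ Xs := by positivity
  have p8 : (0 : ℝ) ≤ a₀ := by positivity
  have hM64 : 64 ≤ M := by linarith
  have hM1 : 1 ≤ M := by linarith
  have hMη0 : 384 / η' ≤ M := by linarith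
  have hMη : 256 / η' ≤ M := by
    refine le_trans ?_ hMη0
    gcongr
    norm_num
  refine ⟨M, hM64, ?_⟩
  intro z Y K H q D hX hz hzY hK hS hSq hIN hEQ hTH hex
  have hY1 : 1 ≤ Y := by
    rcases Nat.eq_zero_or_pos Y with h | h
    · rw [h] at hX
      simp at hX
      linarith
    · exact h
  have hYX : Y ≤ Y ^ 2 := Nat.le_self_pow (by norm_num) Y
  obtain ⟨X, hXdef⟩ : ∃ X : ℕ, X = Y ^ 2 := ⟨_, rfl⟩
  rw [← hXdef] at hX hz hzY hS hYX
  have hCh0 : (0 : ℝ) ≤ Ch := by positivity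
  have hCj0 : (0 : ℝ) ≤ Cj := by positivity
  have hlpos : 0 ≤ (z : ℝ) * Real.log (Real.log X) := by
    have : 0 ≤ Real.log (Real.log X) := by linarith
    positivity
  have hzY2 : 64 * ((z : ℝ) * Real.log (Real.log X)) + Ch * (z * Real.log (Real.log X)) + Cj * (z * Real.log (Real.log X)) ≤ Real.log Y := by
    push_cast at hzY
    linarith
  have hChl := mul_nonneg hCh0 hlpos
  have hCjl := mul_nonneg hCj0 hlpos
  have hzY' : 64 * z * Real.log (Real.log X) ≤ Real.log Y := by linarith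
  obtain ⟨hL0, hLM, hzM, hzL, hzl, hXe, hYe, hLe, hl64, hlL, hYXl⟩ := elemQ hM64 hX hYX hz hzY'
  have hzL64 : 64 * z * Real.log (Real.log X) ≤ Real.log X := by linarith
  have hscale := fun (Z : ℕ) (h1 : X ≤ Z) (h2 : Z ≤ z * X) => scaleQ hl64 hz hzL64 h1 h2
  have hM0 : 0 < M := by linarith
  have hz0 : (0 : ℝ) < z := by linarith
  have hzMM : M ≤ z := by linarith
  have hz1 : z₁ ≤ z := by
    have : (z₁ : ℝ) ≤ z := by linarith
    exact_mod_cast this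
  have hzh : zh ≤ z := by
    have : (zh : ℝ) ≤ z := by linarith
    exact_mod_cast this
  have hzj : zj ≤ z := by
    have : (zj : ℝ) ≤ z := by linarith
    exact_mod_cast this
  have hzc : zc ≤ z := by
    have : (zc : ℝ) ≤ z := by linarith
    exact_mod_cast this
  have hz64 : 64 ≤ z := by
    have : (64 : ℝ) ≤ z := by linarith
    exact_mod_cast this
  have hXL : Real.log X ≤ X := by
    have := Real.add_one_le_exp (Real.log X)
    rw [← hXe] at this; linarith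
  have hXs : Xs ≤ X := by
    have : (Xs : ℝ) ≤ X := by linarith
    exact_mod_cast this
  have hX3 : 3 ≤ X := by
    have : (3 : ℝ) ≤ X := by linarith
    exact_mod_cast this
  have hX0 : (0 : ℝ) < X := by linarith
  have hY0 : (0 : ℝ) < Y := by exact_mod_cast hY1
  have hLX2 : Real.log X = 2 * Real.log Y := by
    rw [hXdef]; push_cast; rw [Real.log_pow]; norm_num
  set L := Real.log X with hL
  set l := Real.log L with hl
  set LY := Real.log Y with hLY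
  have hW1 := one_le_PW z
  have hWe : (PW z : ℝ) ≤ Real.exp (2 * z) := PW_le pb z
  have hW0 : (0 : ℝ) < PW z := by linarith
  have hzl' : (z : ℝ) ≤ z * l := le_mul_of_one_le_right hz0.le (by linarith)
  have hLYz : 64 * (z : ℝ) ≤ LY := by linarith
  have hLYM : M ≤ LY := by linarith
  have hLY0 : 0 < LY := by linarith
  have hLY1 : 1 ≤ LY := by linarith
  have hY3 : 3 ≤ Y := by
    have h1 := Real.add_one_le_exp LY
    rw [← hYe] at h1
    have : (3 : ℝ) ≤ Y := by linarith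
    exact_mod_cast this
  -- δ
  have hlz0' : 32 * Ch / η' ≤ Real.log z := by
    rw [Real.le_log_iff_exp_le hz0]; linarith
  have hCh1 : (1 : ℝ) ≤ Ch := by exact_mod_cast hCh
  have hlz0 : 0 < Real.log z := lt_of_lt_of_le (by positivity) hlz0'
  have hδh : (Ch : ℝ) / Real.log z ≤ η' / 32 := by
    rw [div_le_iff₀ hlz0]
    rw [div_le_iff₀ hη'0] at hlz0'
    linarith
  have hδ0 : 0 ≤ (Ch : ℝ) / Real.log z := by positivity
  have hL1 : 1 ≤ L := by linarith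
  have hε0 : 0 ≤ 1 / L ^ (a₀ + 11) := by positivity
  have hεY0 : 0 ≤ 1 / LY ^ (a₀ + 11) := by positivity
  have hεY : 1 / LY ^ (a₀ + 11) ≤ η' / 384 := by
    have h1 : 1 / LY ^ (a₀ + 11) ≤ 1 / M := aux_pow (a := a₀ + 10) hM1 hLYM
    have h2 : 1 / M ≤ η' / 384 := by
      rw [div_le_div_iff₀ hM0 (by norm_num)]
      rw [div_le_iff₀ hη'0] at hMη0
      linarith
    exact h1.trans h2
  have hεY1 : 1 / LY ^ (a₀ + 11) ≤ 1 := by linarith
  have hHH0 : 0 ≤ (Ch : ℝ) / Real.log z + 3 * (1 / LY ^ (a₀ + 11)) := by positivity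
  have hHH : (Ch : ℝ) / Real.log z + 3 * (1 / LY ^ (a₀ + 11)) ≤ η' / 16 := by linarith
  -- conditions
  have hW20 : (PW z : ℝ) ^ 20 ≤ X := by
    calc (PW z : ℝ) ^ 20 ≤ (Real.exp (2 * z)) ^ 20 := by gcongr
      _ = Real.exp (40 * z) := by rw [← Real.exp_nat_mul]; ring_nf
      _ ≤ Real.exp L := Real.exp_le_exp.2 (by linarith)
      _ = X := hXe.symm
  have hWX : 2 * (PW z : ℝ) ≤ X := by
    calc 2 * (PW z : ℝ) ≤ Real.exp z * Real.exp (2 * z) := by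
          gcongr; linarith [Real.add_one_le_exp (z : ℝ)]
      _ = Real.exp (3 * z) := by rw [← Real.exp_add]; ring_nf
      _ ≤ Real.exp L := Real.exp_le_exp.2 (by linarith)
      _ = X := hXe.symm
  have hWXn : PW z ≤ X := by
    have : (PW z : ℝ) ≤ X := by linarith
    exact_mod_cast this
  have hWY : PW z ≤ Y := by
    have : (PW z : ℝ) ≤ Y := by
      calc (PW z : ℝ) ≤ Real.exp (2 * z) := hWe
        _ ≤ Real.exp LY := Real.exp_le_exp.2 (by linarith)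
        _ = Y := hYe.symm
    exact_mod_cast this
  have hKz' : (96 : ℝ) * (K + 1) ≤ z := by exact_mod_cast hK
  have hK0 : (0 : ℝ) ≤ K := by positivity
  have hcondH : Real.exp (Ch * z) * LY ^ (Ch * (K + 1)) ≤ Y := condH hl64 hLe hYe hYXl hLY0.le hKz' (by linarith)
  have hcondJ : (PW z : ℝ) ^ 2 * Real.log (4 * (Y : ℝ) ^ 2) ^ (Cj * (K + 1)) ≤ Y := condJ hl64 hLe hY0 hLY hLX2 (by linarith) hKz' hWe (by linarith)
  have hSP : ∀ Z h, 1 / 2 ≤ SP z Z h := fun Z h => us.2.2 z Z h (by omega)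
  have hSP0 : ∀ Z h, 0 < SP z Z h := fun Z h => lt_of_lt_of_le (by norm_num) (hSP Z h)
  have hJ0 : ∀ h, 0 ≤ JP z h := by
    intro h
    unfold JP
    apply prod_nonneg
    intro p hp
    rw [mem_filter, Nat.mem_primeFactors] at hp
    have hp2 : (2 : ℝ) ≤ p := by exact_mod_cast hp.1.1.two_le
    apply div_nonneg <;> linarith
  have hv := vv_pos z
  have hXH : ∀ i, X ≤ H i := fun i => (hS.scale i).1
  have hcast : ∀ i, ∀ n ∈ Ioc Y (2 * Y), ((vq (q i) n : ℕ) : ZMod (PW z)) = ev (q i) (n : ZMod (PW z)) := fun i n hn => cast_vq _ _ (hS.nonneg i hn)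
  have hdeg : ∀ i, (q i).natDegree ≤ 2 := fun i => (hS.deg i).2
  have hS2 : Sys 2 z Y (Y ^ 2) H q := by rw [← hXdef]; exact hS
  have hsp := spj z Y K H q (by omega) hS2 hSq
  unfold LS.EQc at hEQ
  unfold LS.THc at hTH
  rw [← hLY] at hEQ hTH
  -- the first moment
  have f1 := m1 2 C hC l1 un (PW z) Y K H q (1 / LY ^ (a₀ + 11)) (3 * (1 / L ^ (a₀ + 11) + PW z / X)) (PW_sqf z) hWY (fun i => hWXn.trans (hXH i)) hεY0 (by positivity) hdeg hSq
    (fun i n hn => hS.nonneg i hn) (by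
      have h5 : (∑ n ∈ Ioc Y (2 * Y), wt n - Y) ^ 2 ≤ (1 / LY ^ (a₀ + 11) * Y) ^ 2 := by
        refine hTH.trans (le_of_eq ?_)
        rw [mul_comm 2, pow_mul]; field_simp
      exact abs_le_of_sq_le_sq h5 (by positivity)) (by
      intro i n hn
      obtain ⟨s1, s2, s3, s4⟩ := hscale _ (hXH i) (hS.scale i).2
      have h5 := (hIN i).1 (vq (q i) n) (hS.mem i hn).1
      rw [hcast i n hn] at h5
      refine h5.trans ?_
      rw [mul_pow]
      refine mul_le_mul_of_nonneg_right (mul_le_mul_of_nonneg_right ?_ (sq_nonneg _)) (Nat.cast_nonneg _)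
      have h7 : 1 / Real.log (H i) ^ (2 * (a₀ + 11)) ≤ (1 / L ^ (a₀ + 11)) ^ 2 := by
        rw [div_pow, one_pow, ← pow_mul, mul_comm (a₀ + 11) 2]
        gcongr
      have h8 : (PW z : ℝ) / (H i : ℝ) ≤ PW z / X := by
        have : (X : ℝ) ≤ (H i : ℝ) := by exact_mod_cast hXH i
        gcongr
      have h9 : ((PW z : ℝ) / (H i : ℝ)) ^ 2 ≤ (PW z / X) ^ 2 := by gcongr
      have h10 : 0 ≤ (PW z : ℝ) / X := by positivity
      exact aux_sq hε0 h10 h7 h9)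
  -- sums over few pairs
  have hesum := few_pairs esq (hhj z Y K hzj (by omega) hcondJ) hJ0 (exq Y q D) (1 / (PW z : ℝ) ^ (a₀ + 8)) (by positivity) (by
      refine hex.trans (le_of_eq ?_)
      rw [div_pow, one_pow, ← pow_mul, mul_comm (a₀ + 8) 2]
      field_simp)
  have hHSS := hhs z Y K (1 / LY ^ (a₀ + 11)) hzh (by omega) hcondH hWY hεY0 hεY1 (by
      refine hEQ.trans (le_of_eq ?_)
      rw [div_pow, one_pow, ← pow_mul, mul_comm (a₀ + 11) 2]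
      field_simp)
  -- the second moment
  have f2 := m2 2 C hC l2 un (PW z) Y K H q (1 / L ^ (2 * (a₀ + 11))) (2 * Cs) (16 * L ^ 2) ((Ch : ℝ) / Real.log z + 3 * (1 / LY ^ (a₀ + 11))) (2 / (PW z : ℝ) ^ (a₀ + 8))
    (fun i n m => SP z (H i) (dst (vq (q i) n) (vq (q i) m))) (fun n m => JP z (dst (n ^ 2) (m ^ 2))) (exq Y q D) (PW_sqf z) hWY (fun i => hWXn.trans (hXH i)) hdeg hSq
    (fun i n hn => hS.nonneg i hn)
    (by positivity) (by positivity) (by positivity) hHH0 (by positivity) (fun i n m => hSP0 _ _) (fun n m => hJ0 _)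
    (fun i n hn m hm hnm => (hsp i n hn m hm hnm).2.1)
    (by
      intro i n hn m hm hnm hnE
      obtain ⟨s1, s2, s3, s4⟩ := hscale _ (hXH i) (hS.scale i).2
      have hd : dst (vq (q i) n) (vq (q i) m) ∉ D i := by
        intro h
        apply hnE
        unfold exq
        rw [mem_filter, mem_product]
        exact ⟨⟨hn, hm⟩, i, h⟩
      have h5 := (hIN i).2 (vq (q i) n) (hS.mem i hn).1 (vq (q i) m) (hS.mem i hm).1 (hS.mem i hn).2 (hS.mem i hm).2 (hsp i n hn m hm hnm).1 hd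
      rw [hcast i n hn, hcast i m hm] at h5
      refine h5.trans ?_
      have h8 := (hSP0 (H i) (dst (vq (q i) n) (vq (q i) m))).le
      have h7 : 1 / Real.log (H i) ^ (2 * (a₀ + 11)) ≤ 1 / L ^ (2 * (a₀ + 11)) :=
        one_div_le_one_div_of_le (pow_pos hL0 _) (pow_le_pow_left₀ hL0.le s1 _)
      have h9 : 0 ≤ 1 / Real.log (H i) ^ (2 * (a₀ + 11)) :=
        one_div_nonneg.2 (pow_nonneg (hL0.le.trans s1) _)
      exact mul_le_mul_of_nonneg_right (pow_le_pow_left₀ (mul_nonneg (mul_nonneg h9 (sq_nonneg _)) h8)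
        (mul_le_mul_of_nonneg_right (mul_le_mul_of_nonneg_right h7 (sq_nonneg _)) h8) 2) (Nat.cast_nonneg _))
    (by
      intro i n hn m hm β hβ
      apply B2_zero (hWXn.trans (hXH i)) (hS.mem i hn).1 (hS.mem i hm).1
      rw [hcast i n hn, hcast i m hm]
      exact hβ)
    (by
      intro i n hn m hm hnm β
      have s5r : (X : ℝ) ≤ (H i : ℝ) := by exact_mod_cast hXH i
      exact B2_le hCs (hSP0 _ _).le (hWX.trans s5r) (hsv z (H i) (hXs.trans (hXH i)) (by omega) (hW20.trans s5r) _ (hS.mem i hn).1 _ (hS.mem i hm).1 (hsp i n hn m hm hnm).1 β))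
    (by
      intro i n hn β
      obtain ⟨s1, s2, s3, s4⟩ := hscale _ (hXH i) (hS.scale i).2
      refine (B2_triv (hX3.trans (hXH i)) (hS.mem i hn).1 (hS.mem i hn).1 β).trans ?_
      have h5 : Real.log (H i) ^ 2 ≤ (2 * L) ^ 2 := by
        have : 0 ≤ Real.log (H i) := by linarith
        gcongr
      calc 4 * Real.log (H i) ^ 2 ≤ 4 * (2 * L) ^ 2 := by linarith
        _ = 16 * L ^ 2 := by ring)
    (by
      intro n hn
      rw [mem_Ioc] at hn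
      exact wt_le hY3 (by omega))
    hHSS
    (by
      refine hesum.trans (le_of_eq ?_)
      ring)
  have hnum := num_partP (Y := Y) (K := K) (a₀ := a₀) (Nc := Nc) (C := C) (ε₀ := 1 / LY ^ (a₀ + 11)) hη'0 hη'1 hM64 hMη (by positivity : (0:ℝ) ≤ 2 * Cs) ha₀1 ha₀2 (by linarith) pb (hz₁ z hz1)
    (hcc z hzc).1 (hcc z hzc).2 hX hYX hz hzY' (by omega) hHH0 hHH hεY0 (by linarith)
  have hcard : (0 : ℝ) ≤ ((AdP (PW z) q).card : ℝ) := Nat.cast_nonneg _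
  refine (split_sqP H q).trans ?_
  have := mul_le_mul_of_nonneg_right hnum hcard
  have hηη : η' * ((AdP (PW z) q).card : ℝ) ≤ η * ((AdP (PW z) q).card : ℝ) := by
    exact mul_le_mul_of_nonneg_right (min_le_left _ _) hcard
  refine le_trans ?_ hηη
  refine le_trans ?_ this
  have e : ∀ u v w : ℝ, (u - 2 * v + 1) * w = u * w - 2 * (v * w) + w := by intro u v w; ring
  rw [e]
  gcongr

end Pool.Agent.Q145.PQ
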